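import Pool.Agent.X91.TY.Grid

set_option autoImplicit false

/-!
The zero-one law for continuous families of lines.
-/

open MeasureTheory Set ENNReal NNReal Metric Filter Topology

namespace Pool.Agent.X91.TY

open Pool.Agent.H803R2.Kak Pool.Agent.H803R2.KakFTO

variable {d : ℕ}

/-- The continuous families of lines with directions `(v, 1)`, `|v| ≤ 1`. -/
abbrev Fam (d : ℕ) : Type := C(closedBall (0 : Vec d) 1, Vec d)

/-- The extension by zero. -/
noncomputable def ex (b : Fam d) (v : Vec d) : Vec d :=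
  open Classical in if h : v ∈ closedBall (0 : Vec d) 1 then b ⟨v, h⟩ else 0

theorem ex_of_mem (b : Fam d) {v : Vec d} (h : v ∈ closedBall (0 : Vec d) 1) :
    ex b v = b ⟨v, h⟩ := by
  unfold ex
  rw [dif_pos h]

theorem measurable_ex (b : Fam d) : Measurable (ex b) := by
  classical
  unfold ex
  exact Measurable.dite b.continuous.measurable (g := fun _ => (0 : Vec d)) measurable_const
    measurableSet_closedBall

theorem approx {u : Vec d → Vec d} (hu : Measurable u) {η : ℝ} (hη : 0 < η)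
    (hub : ∀ v, ‖u v‖ ≤ η) : ∃ c : ℕ → Vec d → Vec d, (∀ k, Continuous (c k)) ∧
      (∀ k v, ‖c k v‖ ≤ η) ∧ ∀ᵐ v ∂(volume.restrict (closedBall (0 : Vec d) 1)),
        Tendsto (fun k => c k v) atTop (𝓝 (u v)) := by
  set μ : Measure (Vec d) := volume.restrict (closedBall (0 : Vec d) 1) with hμ
  have hfin : IsFiniteMeasure μ := by
    refine ⟨?_⟩
    rw [hμ, Measure.restrict_apply_univ]
    exact measure_closedBall_lt_top
  have hmem : MemLp u 1 μ :=
    MemLp.of_bound hu.aestronglyMeasurable η (Eventually.of_forall hub)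
  have hex : ∀ k : ℕ, ∃ g : Vec d → Vec d, Continuous g ∧
      eLpNorm (u - g) 1 μ ≤ ((k : ℝ≥0∞) + 1)⁻¹ := by
    intro k
    obtain ⟨g, hg, _⟩ := hmem.exists_boundedContinuous_eLpNorm_sub_le (by simp)
      (ε := ((k : ℝ≥0∞) + 1)⁻¹) (by simp)
    exact ⟨g, g.continuous, hg⟩
  choose g hgc hg using hex
  have hlim : Tendsto (fun k => eLpNorm (g k - u) 1 μ) atTop (𝓝 0) := by
    have h1 : Tendsto (fun k : ℕ => ((k : ℝ≥0∞) + 1)⁻¹) atTop (𝓝 0) := by
      have h2 := ENNReal.tendsto_inv_nat_nhds_zero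
      have h3 := h2.comp (tendsto_add_atTop_nat 1)
      refine h3.congr fun k => ?_
      simp
    refine tendsto_of_tendsto_of_tendsto_of_le_of_le tendsto_const_nhds h1
      (fun _ => zero_le) (fun k => ?_)
    rw [← eLpNorm_neg, neg_sub]
    exact hg k
  have hm := tendstoInMeasure_of_tendsto_eLpNorm (p := 1) one_ne_zero
    (fun k => (hgc k).aestronglyMeasurable) hu.aestronglyMeasurable hlim
  obtain ⟨ns, _, hns⟩ := hm.exists_seq_tendsto_ae
  set P : Vec d → Vec d := fun w => (η / max η ‖w‖) • w with hP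
  have hmax : ∀ w : Vec d, 0 < max η ‖w‖ := fun w => lt_max_of_lt_left hη
  have hPc : Continuous P := by
    have h1 : Continuous fun w : Vec d => η / max η ‖w‖ := by
      apply Continuous.div continuous_const (by fun_prop)
      intro w
      exact (hmax w).ne'
    exact h1.smul continuous_id
  have hPn : ∀ w, ‖P w‖ ≤ η := by
    intro w
    simp only [hP]
    rw [norm_smul, Real.norm_of_nonneg (div_nonneg hη.le (hmax w).le), div_mul_eq_mul_div,
      div_le_iff₀ (hmax w)]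
    gcongr
    exact le_max_right _ _
  have hPu : ∀ v, P (u v) = u v := by
    intro v
    simp only [hP]
    rw [max_eq_left (hub v), div_self hη.ne', one_smul]
  refine ⟨fun k v => P (g (ns k) v), fun k => hPc.comp (hgc _), fun k v => hPn _, ?_⟩
  filter_upwards [hns] with v hv
  rw [← hPu v]
  exact (hPc.tendsto _).comp hv

theorem isOpen_JJ {δ p : ℝ} (hp : 0 ≤ p) {F : Space d → ℝ≥0∞} (hF : Measurable F) (c : ℝ≥0∞) :
    IsOpen {b : Fam d | c < JJ δ p (ex b) F} := by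
  rw [← isClosed_compl_iff]
  apply IsSeqClosed.isClosed
  intro x b hx hlim
  simp only [mem_compl_iff, mem_ofPred_eq, not_lt] at hx ⊢
  have h1 : ∀ᵐ v ∂(volume.restrict (closedBall (0 : Vec d) 1)),
      Tendsto (fun k => ex (x k) v) atTop (𝓝 (ex b v)) := by
    filter_upwards [ae_restrict_mem measurableSet_closedBall] with v hv
    have h2 : ∀ k, ex (x k) v = x k ⟨v, hv⟩ := fun k => ex_of_mem _ hv
    simp only [h2]
    rw [ex_of_mem b hv]
    have h3 : Continuous fun f : Fam d => f (⟨v, hv⟩ : closedBall (0 : Vec d) 1) :=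
      continuous_eval_const _
    exact (h3.tendsto b).comp hlim
  refine (JJ_lsc hp (fun k => measurable_ex (x k)) h1 hF).trans ?_
  refine liminf_le_of_le (by isBoundedDefault) ?_
  intro y hy
  obtain ⟨k, hk⟩ := hy.exists
  exact hk.trans (hx k)

/-- The family `b` violates the estimate with the constant `K`. -/
def Bad (δ p : ℝ) (K : ℝ≥0∞) (b : Vec d → Vec d) : Prop :=
  ∃ F : Space d → ℝ≥0∞, Measurable F ∧ K * ∫⁻ y, F y ^ p < JJ δ p b F

theorem isOpen_bad {p : ℝ} (hp : 0 ≤ p) (K : ℝ → ℝ≥0∞) :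
    IsOpen {b : Fam d | ∃ δ : ℝ, 0 < δ ∧ δ < 1 ∧ Bad δ p (K δ) (ex b)} := by
  have : {b : Fam d | ∃ δ : ℝ, 0 < δ ∧ δ < 1 ∧ Bad δ p (K δ) (ex b)} =
      ⋃ δ : ℝ, ⋃ (_ : 0 < δ ∧ δ < 1), ⋃ F : Space d → ℝ≥0∞, ⋃ (_ : Measurable F),
        {b : Fam d | K δ * ∫⁻ y, F y ^ p < JJ δ p (ex b) F} := by
    ext b
    simp only [mem_ofPred_eq, mem_iUnion, Bad]
    constructor
    · rintro ⟨δ, h1, h2, F, hF, h3⟩
      exact ⟨δ, ⟨h1, h2⟩, F, hF, h3⟩
    · rintro ⟨δ, ⟨h1, h2⟩, F, hF, h3⟩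
      exact ⟨δ, h1, h2, F, hF, h3⟩
  rw [this]
  exact isOpen_iUnion fun δ => isOpen_iUnion fun _ => isOpen_iUnion fun F =>
    isOpen_iUnion fun hF => isOpen_JJ hp hF _

theorem dense_bad {p : ℝ} (hp : 0 < p) {Φ : ℝ → ℝ≥0∞}
    (hfail : ∀ C : ℕ, ∃ b : Vec d → Vec d, Measurable b ∧ ∃ δ : ℝ, 0 < δ ∧ δ < 1 ∧
      Bad δ p (C * Φ δ) b) (M : ℕ) :
    Dense {b : Fam d | ∃ δ : ℝ, 0 < δ ∧ δ < 1 ∧ Bad δ p (M * Φ δ) (ex b)} := by
  rw [Metric.dense_iff]
  intro b0 r hr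
  set η : ℝ := r / 2 with hη
  have hη0 : 0 < η := by positivity
  have hR : ∀ v ∈ closedBall (0 : Vec d) 1, ∀ j, |ex b0 v j| ≤ ‖b0‖ := by
    intro v hv j
    rw [ex_of_mem b0 hv]
    exact (abs_coord_le _ j).trans (b0.norm_coe_le_norm _)
  obtain ⟨G, hG⟩ := gridify (measurable_ex b0) (norm_nonneg b0) hR hη0
  obtain ⟨b1, hb1, δ, hδ, hδ1, F1, hF1, h1⟩ := hfail (M * G * 11 ^ (d + 1))
  obtain ⟨b', B', F', hb', hB', hB1, hb2, hF', h2⟩ := localize hδ hδ1 hp (K := M * G * Φ δ) hb1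
    hF1 (by
      refine lt_of_le_of_lt (le_of_eq ?_) h1
      push_cast
      ring)
  obtain ⟨b, F, hb, hF, hbb, h3, h4⟩ := hG δ p b' B' F' hp hb' hB' hB1 hb2 hF'
  have h5 : M * Φ δ * ∫⁻ y, F y ^ p < JJ δ p b F := by
    calc M * Φ δ * ∫⁻ y, F y ^ p ≤ M * Φ δ * (G * ∫⁻ y, F' y ^ p) := by gcongr
      _ = M * G * Φ δ * ∫⁻ y, F' y ^ p := by ring
      _ < _ := h2
      _ ≤ _ := h4
  obtain ⟨c, hcc, hcn, hct⟩ := approx (hb.sub (measurable_ex b0)) hη0 (fun v => hbb v)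
  set x : ℕ → Fam d := fun k => b0 + ⟨fun v => c k v, (hcc k).comp continuous_subtype_val⟩ with hx
  have hxe : ∀ k, ∀ v ∈ closedBall (0 : Vec d) 1, ex (x k) v = ex b0 v + c k v := by
    intro k v hv
    rw [ex_of_mem _ hv, ex_of_mem _ hv]
    rfl
  have h6 : ∀ᵐ v ∂(volume.restrict (closedBall (0 : Vec d) 1)),
      Tendsto (fun k => ex (x k) v) atTop (𝓝 (b v)) := by
    filter_upwards [ae_restrict_mem measurableSet_closedBall, hct] with v hv hv2
    have h7 : ∀ k, ex (x k) v = ex b0 v + c k v := fun k => hxe k v hv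
    simp only [h7]
    have h8 := (tendsto_const_nhds (x := ex b0 v)).add hv2
    simpa using h8
  have h7 := lt_of_lt_of_le h5 (JJ_lsc hp.le (fun k => measurable_ex (x k)) h6 hF)
  obtain ⟨k, hk⟩ := (eventually_lt_of_lt_liminf h7).exists
  refine ⟨x k, ?_, δ, hδ, hδ1, F, hF, hk⟩
  rw [mem_ball, dist_eq_norm]
  have h8 : x k - b0 = ⟨fun v => c k v, (hcc k).comp continuous_subtype_val⟩ := by
    simp only [hx]
    rw [add_sub_cancel_left]
  rw [h8]
  refine lt_of_le_of_lt ((ContinuousMap.norm_le _ hη0.le).2 fun v => hcn k v) ?_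
  rw [hη]
  linarith

/-- **Zero-one law.** -/
theorem zero_one {p : ℝ} (hp : 0 < p) (Φ : ℝ → ℝ≥0∞) :
    (∃ C : ℕ, ∀ b : Vec d → Vec d, Measurable b → ∀ δ : ℝ, 0 < δ → δ < 1 →
      ∀ F : Space d → ℝ≥0∞, Measurable F → JJ δ p b F ≤ C * Φ δ * ∫⁻ y, F y ^ p) ∨
    ∀ᶠ b in residual (Fam d), ∀ M : ℕ, ∃ δ : ℝ, 0 < δ ∧ δ < 1 ∧ Bad δ p (M * Φ δ) (ex b) := by
  by_cases h : ∀ C : ℕ, ∃ b : Vec d → Vec d, Measurable b ∧ ∃ δ : ℝ, 0 < δ ∧ δ < 1 ∧
      Bad δ p (C * Φ δ) b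
  · right
    rw [eventually_countable_forall]
    intro M
    exact residual_of_dense_open (isOpen_bad hp.le _) (dense_bad hp h M)
  · left
    push Not at h
    obtain ⟨C, hC⟩ := h
    refine ⟨C, fun b hb δ hδ hδ1 F hF => ?_⟩
    by_contra hcon
    rw [not_le] at hcon
    exact hC b hb δ hδ hδ1 ⟨F, hF, hcon⟩

end Pool.Agent.X91.TY
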