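import Pool.Agent.X91.TY.Triv
import Pool.Agent.H805R3.Kk.Int

set_option autoImplicit false

/-!
Good scales of typical families.
-/

open MeasureTheory Set ENNReal NNReal Metric Filter Topology

namespace Pool.Agent.X91.TY

open Pool.Agent.H803R2.Kak Pool.Agent.H803R2.KakFTO Pool.Agent.H805R3.Kk

variable {d : ℕ}

/-- From real functions to functions with values in `[0, ∞]`. -/
theorem to_real {δ p : ℝ} (hp : 0 < p) {b : Vec d → Vec d} {B : Set (Vec d)} {K : ℝ≥0∞}
    (hK : K ≠ 0) (h : ∀ f : Space d → ℝ, Measurable f →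
      ∫⁻ v in B, lineMax δ b f v ^ p ≤ K * ∫⁻ y, ‖f y‖ₑ ^ p) {F : Space d → ℝ≥0∞}
    (hF : Measurable F) : ∫⁻ v in B, lm δ b F v ^ p ≤ K * ∫⁻ y, F y ^ p := by
  rcases eq_or_ne (∫⁻ y, F y ^ p) ∞ with hinf | hfin
  · rw [hinf, ENNReal.mul_top hK]
    exact le_top
  have hae : ∀ᵐ y : Space d, F y < ∞ := by
    filter_upwards [ae_lt_top (hF.pow_const p) hfin] with y hy
    by_contra hcon
    rw [not_lt, top_le_iff] at hcon
    rw [hcon, ENNReal.top_rpow_of_pos hp] at hy
    exact lt_irrefl _ hy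
  set f : Space d → ℝ := fun y => (F y).toReal with hf
  have hfm : Measurable f := hF.ennreal_toReal
  have he : ∀ᵐ y : Space d, ‖f y‖ₑ = F y := by
    filter_upwards [hae] with y hy
    simp only [hf]
    rw [Real.enorm_of_nonneg ENNReal.toReal_nonneg, ENNReal.ofReal_toReal hy.ne]
  have h1 := h f hfm
  have h2 : ∫⁻ y, ‖f y‖ₑ ^ p = ∫⁻ y, F y ^ p := by
    apply lintegral_congr_ae
    filter_upwards [he] with y hy
    rw [hy]
  have h3 : ∀ v, lineMax δ b f v = lm δ b F v := by
    intro v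
    rw [lineMax_eq]
    unfold lm av
    congr 1
    ext s
    congr 1
    apply lintegral_congr_ae
    filter_upwards [ae_restrict_of_ae he] with y hy
    rw [hy]
  rw [h2] at h1
  simp only [h3] at h1
  exact h1

/-- The loss: `(1 + log (1/δ))^(n-1)` at the critical exponent `p = n`, none for `p > n`. -/
noncomputable def loss (d : ℕ) (p δ : ℝ) : ℝ :=
  if p = d + 1 then (1 + Real.log (1 / δ)) ^ d else 1

theorem one_le_loss (d : ℕ) {p δ : ℝ} (hδ : 0 < δ) (hδ1 : δ < 1) : 1 ≤ loss d p δ := by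
  have : 0 ≤ Real.log (1 / δ) := Real.log_nonneg (by rw [le_div_iff₀ hδ]; linarith)
  unfold loss
  split_ifs
  · exact one_le_pow₀ (by linarith)
  · exact le_rfl

theorem overlap_all (hd : 1 ≤ d) {p : ℝ} (hp : (d : ℝ) + 1 ≤ p) : ∃ C : ℝ, 0 < C ∧
    ∀ (N : ℕ) (B : Set (Vec d)) (g b : Vec d → Vec d) (δ : ℝ), 1 ≤ N → MeasurableSet B →
      B ⊆ closedBall 0 1 → 0 < δ → δ < 1 → LipPieces B g → OverlapLE N univ B g →
      (∀ v ∈ B, ‖b v - g v‖ ≤ δ) → ∀ f : Space d → ℝ, Measurable f →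
      ∫⁻ v in B, lineMax δ b f v ^ p ≤ ENNReal.ofReal (C * N * loss d p δ) * ∫⁻ y, ‖f y‖ₑ ^ p := by
  by_cases hpd : p = d + 1
  · refine ⟨cst d, cst_pos hd, ?_⟩
    intro N B g b δ hN hB hB1 hδ hδ1 hg hgN hbg f hf
    have h := overlap hd hN MeasurableSet.univ hB hB1 hg hgN hbg hδ hδ1 hf.aemeasurable
      (fun _ _ h => absurd (mem_univ _) h)
    have e : p = ((d + 1 : ℕ) : ℝ) := by rw [hpd]; push_cast; ring
    rw [loss, if_pos hpd]
    simp only [e, ENNReal.rpow_natCast]
    exact h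
  · have hp' : (d:ℝ) + 1 < p := lt_of_le_of_ne hp (fun h => hpd h.symm)
    refine ⟨cstp d p, (cstp_spec hd hp').1, ?_⟩
    intro N B g b δ hN hB hB1 hδ hδ1 hg hgN hbg f hf
    have h := tubes_p hd hp' MeasurableSet.univ hB hB1 hg hgN hbg hδ hδ1 hf.aemeasurable
      (fun _ _ h => absurd (mem_univ _) h)
    rw [loss, if_neg hpd, mul_one]
    exact h

/-- Step families near a given family. -/
theorem step_near {b0 : Vec d → Vec d} (hb0 : Measurable b0) {R : ℝ}
    (hb0R : ∀ v ∈ closedBall (0 : Vec d) 1, ∀ j, |b0 v j| ≤ R) {η : ℝ} (hη : 0 < η) :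
    ∃ (N : ℕ) (s : Vec d → Vec d), 1 ≤ N ∧ Measurable s ∧ (∀ v, ‖s v - b0 v‖ ≤ η) ∧
      ∀ B : Set (Vec d), MeasurableSet B → B ⊆ closedBall 0 1 →
        LipPieces B s ∧ OverlapLE N univ B s := by
  classical
  set h : ℝ := η / (d + 1) with hh
  have hh0 : 0 < h := by positivity
  set M : ℤ := ⌈R / h⌉ + 1 with hM
  set S : Finset (Fin d → ℤ) := Fintype.piFinset (fun _ : Fin d => Finset.Icc (-M) M) with hS
  set k : Vec d → Fin d → ℤ := fun v j => ⌊b0 v j / h⌋ with hk
  have hc0 : ∀ j : Fin d, Measurable fun x : Vec d => x j := fun j => by fun_prop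
  have hkm0 : Measurable k := by
    apply measurable_pi_lambda
    intro j
    exact Int.measurable_floor.comp (((hc0 j).comp hb0).div_const h)
  have hkm : ∀ j, Measurable fun v => (k v j : ℝ) := by
    intro j
    have : Measurable (fun z : ℤ => (z : ℝ)) := measurable_from_top
    exact this.comp ((measurable_pi_apply j).comp hkm0)
  set s : Vec d → Vec d := fun v => gv h (k v) with hs
  have hsm : Measurable s := by
    have h1 : Measurable fun v => (fun j => h * (k v j : ℝ) : Fin d → ℝ) :=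
      measurable_pi_lambda _ fun j => (hkm j).const_mul h
    exact (WithLp.measurable_toLp 2 (Fin d → ℝ)).comp h1
  refine ⟨S.card + 1, s, by omega, hsm, ?_, ?_⟩
  · intro v
    have e2 : h * (d + 1) = η := by rw [hh]; field_simp
    rw [← e2, ← norm_neg]
    apply norm_le_of_coord hh0.le
    intro j
    have e3 : (-(s v - b0 v)) j = h * (b0 v j / h - ⌊b0 v j / h⌋) := by
      simp only [PiLp.neg_apply, PiLp.sub_apply, hs, gv_apply, hk]
      field_simp
      ring
    rw [e3, abs_mul, abs_of_pos hh0]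
    have h1 : |b0 v j / h - ⌊b0 v j / h⌋| ≤ 1 := by
      rw [abs_of_nonneg (by linarith [Int.floor_le (b0 v j / h)])]
      linarith [Int.lt_floor_add_one (b0 v j / h)]
    calc h * |b0 v j / h - ⌊b0 v j / h⌋| ≤ h * 1 := by gcongr
      _ = h := mul_one h
  · intro B hB hB1
    have hkS : ∀ v ∈ B, k v ∈ S := by
      intro v hv
      rw [hS, Fintype.mem_piFinset]
      intro j
      have h1 : |b0 v j| ≤ R := hb0R v (hB1 hv) j
      have h2 : |b0 v j / h| ≤ R / h := by
        rw [abs_div, abs_of_pos hh0]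
        gcongr
      rw [abs_le] at h2
      have h3 : R / h ≤ ⌈R / h⌉ := Int.le_ceil _
      have h4 : ((⌊b0 v j / h⌋ : ℤ) : ℝ) ≤ b0 v j / h := Int.floor_le _
      have h5 := Int.lt_floor_add_one (b0 v j / h)
      rw [Finset.mem_Icc]
      constructor
      · have : ((-M : ℤ) : ℝ) ≤ ((k v j : ℤ) : ℝ) := by
          simp only [hM, hk]
          push_cast
          linarith
        exact_mod_cast this
      · have : ((k v j : ℤ) : ℝ) ≤ ((M : ℤ) : ℝ) := by
          simp only [hM, hk]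
          push_cast
          linarith
        exact_mod_cast this
    constructor
    · refine ⟨fun n => {v | Encodable.encode (k v) = n}, ?_, ?_, ?_⟩
      · intro n
        have h1 : Measurable fun v => Encodable.encode (k v) :=
          (measurable_of_countable _).comp hkm0
        exact h1 (measurableSet_singleton n)
      · have : B \ ⋃ n, {v | Encodable.encode (k v) = n} = ∅ := by
          rw [sdiff_eq_empty]
          intro v _
          exact mem_iUnion.2 ⟨_, rfl⟩
        rw [this, measure_empty]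
      · intro n
        refine ⟨0, ?_⟩
        intro v hv w hw
        have h1 : k v = k w := Encodable.encode_injective (hv.trans (Eq.symm hw))
        simp only [hs, h1, edist_self]
        exact zero_le
    · have h0 : ∀ᵐ t : ℝ, t ≠ 0 := by
        rw [ae_iff]
        simp
      filter_upwards [h0] with t ht _
      apply Eventually.of_forall
      intro y
      have hsub : {v | v ∈ B ∧ s v + t • v = y} ⊆
          ((S.image fun m => t⁻¹ • (y - gv h m) : Finset (Vec d)) : Set (Vec d)) := by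
        rintro v ⟨hv, hy⟩
        rw [Finset.coe_image]
        refine ⟨k v, hkS v hv, ?_⟩
        have : y - gv h (k v) = t • v := by
          rw [← hy]
          simp only [hs]
          abel
        beta_reduce
        rw [this, smul_smul, inv_mul_cancel₀ ht, one_smul]
      refine (encard_le_encard hsub).trans ?_
      rw [encard_coe_eq_coe_finsetCard]
      have h1 : (S.image fun m => t⁻¹ • (y - gv h m)).card ≤ S.card + 1 :=
        Finset.card_image_le.trans (Nat.le_succ _)
      exact_mod_cast h1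

theorem near_good (hd : 1 ≤ d) {p : ℝ} (hp : (d : ℝ) + 1 ≤ p) : ∃ C : ℝ, 0 < C ∧
    ∀ (b0 : Fam d) (η : ℝ), 0 < η → ∃ N : ℕ, ∀ δ : ℝ, 0 < δ → δ < 1 → ∃ b1 : Fam d,
      dist b1 b0 ≤ η ∧ ∀ b' : Vec d → Vec d,
        (∀ v ∈ closedBall (0 : Vec d) 1, ‖b' v - ex b1 v‖ ≤ δ / 2) →
        ∀ F : Space d → ℝ≥0∞, Measurable F →
          JJ δ p b' F ≤ ENNReal.ofReal (C * N * loss d p δ) * ∫⁻ y, F y ^ p := by
  obtain ⟨C, hC, hov⟩ := overlap_all hd hp
  have hd0 : (0 : ℝ) ≤ d := Nat.cast_nonneg d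
  have hp1 : 1 ≤ p := by linarith
  have hp0 : 0 < p := by linarith
  refine ⟨C + 1, by positivity, ?_⟩
  intro b0 η hη
  have hR : ∀ v ∈ closedBall (0 : Vec d) 1, ∀ j, |ex b0 v j| ≤ ‖b0‖ := by
    intro v hv j
    rw [ex_of_mem b0 hv]
    exact (abs_coord_le _ j).trans (b0.norm_coe_le_norm _)
  obtain ⟨N, s, hN, hsm, hsb, hs⟩ := step_near (measurable_ex b0) hR hη
  refine ⟨N, ?_⟩
  intro δ hδ hδ1
  set u : Vec d → Vec d := fun v => s v - ex b0 v with hu
  have hum : Measurable u := hsm.sub (measurable_ex b0)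
  obtain ⟨c, hcc, hcn, hct⟩ := approx hum hη (fun v => hsb v)
  set μ : Measure (Vec d) := volume.restrict (closedBall (0 : Vec d) 1) with hμ
  have hfin : IsFiniteMeasure μ := by
    refine ⟨?_⟩
    rw [hμ, Measure.restrict_apply_univ]
    exact measure_closedBall_lt_top
  have hmeas := tendstoInMeasure_of_tendsto_ae
    (fun k => (hcc k).aestronglyMeasurable (μ := μ)) hct
  have h0 : 0 < v0 d δ := pos_iff_ne_zero.2 (v0_pos hδ)
  have hev := (hmeas (ENNReal.ofReal (δ / 2)) (by simpa using hδ)).eventually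
    (gt_mem_nhds h0)
  obtain ⟨k, hk⟩ := hev.exists
  set b1 : Fam d := b0 + ⟨fun v => c k v, (hcc k).comp continuous_subtype_val⟩ with hb1
  have hxe : ∀ v ∈ closedBall (0 : Vec d) 1, ex b1 v = ex b0 v + c k v := by
    intro v hv
    rw [ex_of_mem _ hv, ex_of_mem _ hv]
    rfl
  refine ⟨b1, ?_, ?_⟩
  · rw [dist_eq_norm]
    have h8 : b1 - b0 = ⟨fun v => c k v, (hcc k).comp continuous_subtype_val⟩ := by
      rw [hb1, add_sub_cancel_left]
    rw [h8]
    exact (ContinuousMap.norm_le _ hη.le).2 fun v => hcn k v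
  · intro b' hb' F hF
    set B : Set (Vec d) := closedBall 0 1 ∩ {v | ‖c k v - u v‖ ≤ δ / 2} with hB
    set Z : Set (Vec d) := closedBall 0 1 ∩ {v | ‖c k v - u v‖ ≤ δ / 2}ᶜ with hZ
    have hm : MeasurableSet {v | ‖c k v - u v‖ ≤ δ / 2} :=
      measurableSet_le ((hcc k).measurable.sub hum).norm measurable_const
    have hBm : MeasurableSet B := measurableSet_closedBall.inter hm
    have hZm : MeasurableSet Z := measurableSet_closedBall.inter hm.compl
    have hsplit : closedBall (0 : Vec d) 1 = B ∪ Z := by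
      rw [hB, hZ, ← inter_union_distrib_left, union_compl_self, inter_univ]
    obtain ⟨hL, hO⟩ := hs B hBm inter_subset_left
    have h1 : ∫⁻ v in B, lm δ b' F v ^ p ≤
        ENNReal.ofReal (C * N * loss d p δ) * ∫⁻ y, F y ^ p := by
      have hloss := one_le_loss d (p := p) hδ hδ1
      have hN' : (1 : ℝ) ≤ N := by exact_mod_cast hN
      apply to_real hp0 _ _ hF
      · rw [Ne, ENNReal.ofReal_eq_zero, not_le]
        positivity
      · intro f hf
        refine hov N B s b' δ hN hBm inter_subset_left hδ hδ1 hL hO ?_ f hf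
        intro v hv
        have h2 := hb' v hv.1
        have h3 : ‖c k v - u v‖ ≤ δ / 2 := hv.2
        have h4 : b' v - s v = (b' v - ex b1 v) + (c k v - u v) := by
          rw [hxe v hv.1, hu]
          beta_reduce
          abel
        rw [h4]
        calc _ ≤ ‖b' v - ex b1 v‖ + ‖c k v - u v‖ := norm_add_le _ _
          _ ≤ δ := by linarith
    have h2 : ∫⁻ v in Z, lm δ b' F v ^ p ≤ 1 * ∫⁻ y, F y ^ p := by
      refine (JJ_triv hδ hδ1 hp1 b' hZm inter_subset_left hF).trans ?_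
      gcongr
      have h3 : volume Z ≤ v0 d δ := by
        calc volume Z = μ {v | ‖c k v - u v‖ ≤ δ / 2}ᶜ := by
              rw [hμ, Measure.restrict_apply hm.compl, inter_comm]
          _ ≤ μ {v | ENNReal.ofReal (δ / 2) ≤ edist (c k v) (u v)} := by
              apply measure_mono
              intro v hv
              simp only [mem_compl_iff, mem_ofPred_eq, not_le] at hv ⊢
              rw [edist_dist, dist_eq_norm]
              exact ENNReal.ofReal_le_ofReal hv.le
          _ ≤ _ := hk.le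
      calc volume Z * (v0 d δ)⁻¹ ≤ v0 d δ * (v0 d δ)⁻¹ := by gcongr
        _ ≤ 1 := ENNReal.mul_inv_le_one _
    unfold JJ
    rw [hsplit]
    refine (lintegral_union_le _ _ _).trans ?_
    calc _ ≤ (ENNReal.ofReal (C * N * loss d p δ) * ∫⁻ y, F y ^ p) + 1 * ∫⁻ y, F y ^ p :=
          add_le_add h1 h2
      _ = (ENNReal.ofReal (C * N * loss d p δ) + ENNReal.ofReal 1) * ∫⁻ y, F y ^ p := by
          rw [ENNReal.ofReal_one, add_mul]
      _ ≤ _ := by
          have hloss := one_le_loss d (p := p) hδ hδ1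
          have hN' : (1 : ℝ) ≤ N := by exact_mod_cast hN
          rw [← ENNReal.ofReal_add (by positivity) zero_le_one]
          gcongr
          nlinarith [one_le_mul_of_one_le_of_one_le hN' hloss]

/-- **Good scales of typical families.** -/
theorem good_scales (hd : 1 ≤ d) {p : ℝ} (hp : (d : ℝ) + 1 ≤ p) {h : ℝ → ℝ}
    (hh : Tendsto h (𝓝[>] 0) atTop) : ∀ᶠ b in residual (Fam d), ∀ m : ℕ, ∃ δ : ℝ, 0 < δ ∧ δ < 1 ∧
      δ < 1 / (m + 1) ∧ ∀ F : Space d → ℝ≥0∞, Measurable F →
        JJ δ p (ex b) F ≤ ENNReal.ofReal (h δ * loss d p δ) * ∫⁻ y, F y ^ p := by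
  obtain ⟨C, hC, hng⟩ := near_good hd hp
  rw [eventually_countable_forall]
  intro m
  set U : Set (Fam d) := {b | ∃ δ : ℝ, 0 < δ ∧ δ < 1 ∧ δ < 1 / (m + 1) ∧ ∃ ρ : ℝ, 0 < ρ ∧
    ∀ b' : Fam d, dist b' b < ρ → ∀ F : Space d → ℝ≥0∞, Measurable F →
        JJ δ p (ex b') F ≤ ENNReal.ofReal (h δ * loss d p δ) * ∫⁻ y, F y ^ p} with hU
  have hUo : IsOpen U := by
    rw [Metric.isOpen_iff]
    rintro b ⟨δ, h1, h2, h3, ρ, hρ, h4⟩
    refine ⟨ρ / 2, by positivity, ?_⟩
    intro b2 hb2
    refine ⟨δ, h1, h2, h3, ρ / 2, by positivity, ?_⟩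
    intro b' hb'
    apply h4
    calc dist b' b ≤ dist b' b2 + dist b2 b := dist_triangle _ _ _
      _ < ρ / 2 + ρ / 2 := add_lt_add hb' hb2
      _ = ρ := by ring
  have hUd : Dense U := by
    rw [Metric.dense_iff]
    intro b0 r hr
    obtain ⟨N, hN⟩ := hng b0 (r / 2) (by positivity)
    have hev : ∀ᶠ δ in 𝓝[>] (0 : ℝ), C * N ≤ h δ := hh.eventually_ge_atTop _
    have hev2 : ∀ᶠ δ in 𝓝[>] (0 : ℝ), δ ∈ Ioo (0 : ℝ) (min 1 (1 / (m + 1))) :=
      Ioo_mem_nhdsGT (lt_min one_pos (by positivity))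
    obtain ⟨δ, h1, h2⟩ := (hev.and hev2).exists
    have hδ1 : δ < 1 := lt_of_lt_of_le h2.2 (min_le_left _ _)
    obtain ⟨b1, hb1, h3⟩ := hN δ h2.1 hδ1
    refine ⟨b1, ?_, δ, h2.1, hδ1, lt_of_lt_of_le h2.2 (min_le_right _ _), δ / 2,
      by linarith [h2.1], ?_⟩
    · rw [mem_ball]
      linarith
    · intro b' hb' F hF
      refine (h3 (ex b') ?_ F hF).trans ?_
      · intro v hv
        rw [ex_of_mem _ hv, ex_of_mem _ hv, ← dist_eq_norm]
        exact (ContinuousMap.dist_apply_le_dist _).trans hb'.le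
      · gcongr
        have := one_le_loss d (p := p) h2.1 hδ1
        linarith
  filter_upwards [residual_of_dense_open hUo hUd] with b hb
  obtain ⟨δ, h1, h2, h3, ρ, hρ, h4⟩ := hb
  refine ⟨δ, h1, h2, h3, fun F hF => h4 b ?_ F hF⟩
  rw [dist_self]
  exact hρ

end Pool.Agent.X91.TY
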