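import Pool.Agent.X91.TY.Loc

set_option autoImplicit false

/-!
Displacement of a bounded family into a neighbourhood of a given family.
-/

open MeasureTheory Set ENNReal NNReal Metric Filter Topology

namespace Pool.Agent.X91.TY

open Pool.Agent.H803R2.Kak Pool.Agent.H803R2.KakFTO

variable {d : ℕ}

/-- The grid vector. -/
noncomputable def gv (h : ℝ) (k : Fin d → ℤ) : Vec d := WithLp.toLp 2 fun j => h * (k j : ℝ)

theorem gv_apply (h : ℝ) (k : Fin d → ℤ) (j : Fin d) : gv h k j = h * (k j : ℝ) := rfl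

theorem norm_le_of_coord {x : Vec d} {h : ℝ} (hh : 0 ≤ h) (hx : ∀ j, |x j| ≤ h) :
    ‖x‖ ≤ h * (d + 1) := by
  have h1 : ‖x‖ ^ 2 ≤ (h * (d + 1)) ^ 2 := by
    rw [EuclideanSpace.norm_sq_eq]
    calc ∑ j, ‖x j‖ ^ 2 ≤ ∑ _j : Fin d, h ^ 2 := by
          apply Finset.sum_le_sum
          intro j _
          rw [Real.norm_eq_abs]
          have := hx j
          gcongr
      _ = d * h ^ 2 := by simp
      _ ≤ (h * (d + 1)) ^ 2 := by
          have h0 : (0 : ℝ) ≤ d := Nat.cast_nonneg d
          have h2 : 0 ≤ h ^ 2 := sq_nonneg h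
          nlinarith [mul_nonneg h0 h2, mul_nonneg (mul_nonneg h0 h0) h2]
  exact (sq_le_sq₀ (norm_nonneg x) (by positivity)).1 h1

theorem iSup_rpow_le {ι : Type*} (S : Finset ι) {p : ℝ} (hp : 0 < p) (a : ι → ℝ≥0∞) :
    (⨆ k ∈ S, a k) ^ p ≤ ∑ k ∈ S, a k ^ p := by
  have h1 : (⨆ k ∈ S, a k) ≤ (∑ k ∈ S, a k ^ p) ^ (1 / p) := by
    apply iSup₂_le
    intro k hk
    calc a k = (a k ^ p) ^ (1 / p) := by
          rw [← ENNReal.rpow_mul, mul_one_div_cancel hp.ne', ENNReal.rpow_one]
      _ ≤ _ := ENNReal.rpow_le_rpow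
          (Finset.single_le_sum (f := fun k => a k ^ p) (fun _ _ => zero_le) hk) (by positivity)
  calc (⨆ k ∈ S, a k) ^ p ≤ ((∑ k ∈ S, a k ^ p) ^ (1 / p)) ^ p := ENNReal.rpow_le_rpow h1 hp.le
    _ = _ := by rw [← ENNReal.rpow_mul, one_div_mul_cancel hp.ne', ENNReal.rpow_one]

theorem gridify {b0 : Vec d → Vec d} (hb0 : Measurable b0) {R : ℝ} (hR : 0 ≤ R)
    (hb0R : ∀ v ∈ closedBall (0 : Vec d) 1, ∀ j, |b0 v j| ≤ R) {η : ℝ} (hη : 0 < η) :
    ∃ G : ℕ, ∀ (δ p : ℝ) (b' : Vec d → Vec d) (B' : Set (Vec d)) (F' : Space d → ℝ≥0∞), 0 < p →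
      Measurable b' → MeasurableSet B' → B' ⊆ closedBall 0 1 → (∀ v ∈ B', ∀ j, |b' v j| ≤ 2) →
      Measurable F' → ∃ (b : Vec d → Vec d) (F : Space d → ℝ≥0∞), Measurable b ∧ Measurable F ∧
        (∀ v, ‖b v - b0 v‖ ≤ η) ∧ ∫⁻ y, F y ^ p ≤ G * ∫⁻ y, F' y ^ p ∧
        ∫⁻ v in B', lm δ b' F' v ^ p ≤ JJ δ p b F := by
  set h : ℝ := η / (d + 1) with hh
  have hh0 : 0 < h := by positivity
  set M : ℤ := ⌈(R + 2) / h⌉ + 1 with hM
  set S : Finset (Fin d → ℤ) := Fintype.piFinset (fun _ : Fin d => Finset.Icc (-M) M) with hS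
  refine ⟨S.card, ?_⟩
  intro δ p b' B' F' hp hb' hB' hB1 hb2 hF'
  classical
  set k : Vec d → Fin d → ℤ := fun v j => ⌊(b0 v j - b' v j) / h⌋ with hk
  have hc0 : ∀ j : Fin d, Measurable fun x : Vec d => x j := fun j => by fun_prop
  have hkm : ∀ j, Measurable fun v => (k v j : ℝ) := by
    intro j
    have h1 : Measurable fun v => (b0 v j - b' v j) / h :=
      (((hc0 j).comp hb0).sub ((hc0 j).comp hb')).div_const h
    have h2 : Measurable fun x : ℝ => ((⌊x⌋ : ℤ) : ℝ) := by
      have : Measurable (fun z : ℤ => (z : ℝ)) := measurable_from_top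
      exact this.comp Int.measurable_floor
    exact h2.comp h1
  have hgm : Measurable fun v => gv h (k v) := by
    have h1 : Measurable fun v => (fun j => h * (k v j : ℝ) : Fin d → ℝ) :=
      measurable_pi_lambda _ fun j => (hkm j).const_mul h
    exact (WithLp.measurable_toLp 2 (Fin d → ℝ)).comp h1
  set b : Vec d → Vec d := fun v => if v ∈ B' then b' v + gv h (k v) else b0 v with hb
  have hbm : Measurable b := Measurable.ite hB' (hb'.add hgm) hb0
  set F : Space d → ℝ≥0∞ := fun y => ⨆ m ∈ S, F' (y + WithLp.toLp 2 (-gv h m, (0 : ℝ))) with hF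
  have hFm : Measurable F :=
    Measurable.biSup (S : Set (Fin d → ℤ)) S.countable_toSet fun m _ =>
      hF'.comp (measurable_add_const _)
  refine ⟨b, F, hbm, hFm, ?_, ?_, ?_⟩
  · intro v
    by_cases hv : v ∈ B'
    · have e1 : b v = b' v + gv h (k v) := by simp [hb, hv]
      rw [e1, ← norm_neg]
      have e2 : h * (d + 1) = η := by rw [hh]; field_simp
      rw [← e2]
      apply norm_le_of_coord hh0.le
      intro j
      have e3 : (-(b' v + gv h (k v) - b0 v)) j =
          h * ((b0 v j - b' v j) / h - ⌊(b0 v j - b' v j) / h⌋) := by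
        simp only [PiLp.neg_apply, PiLp.sub_apply, PiLp.add_apply, gv_apply, hk]
        field_simp
        ring
      rw [e3, abs_mul, abs_of_pos hh0]
      have h1 : |(b0 v j - b' v j) / h - ⌊(b0 v j - b' v j) / h⌋| ≤ 1 := by
        rw [abs_of_nonneg (by linarith [Int.floor_le ((b0 v j - b' v j) / h)])]
        linarith [Int.lt_floor_add_one ((b0 v j - b' v j) / h)]
      calc h * |(b0 v j - b' v j) / h - ⌊(b0 v j - b' v j) / h⌋| ≤ h * 1 := by gcongr
        _ = h := mul_one h
    · have e1 : b v = b0 v := by simp [hb, hv]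
      rw [e1, sub_self, norm_zero]
      exact hη.le
  · calc ∫⁻ y, F y ^ p ≤ ∫⁻ y, ∑ m ∈ S, F' (y + WithLp.toLp 2 (-gv h m, (0 : ℝ))) ^ p :=
          lintegral_mono fun y => iSup_rpow_le S hp _
      _ = ∑ m ∈ S, ∫⁻ y, F' (y + WithLp.toLp 2 (-gv h m, (0 : ℝ))) ^ p := by
          apply lintegral_finsetSum
          intro m _
          exact (hF'.comp (measurable_add_const _)).pow_const p
      _ = ∑ m ∈ S, ∫⁻ y, F' y ^ p := by
          apply Finset.sum_congr rfl
          intro m _
          exact lintegral_add_right_eq_self (fun y => F' y ^ p) _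
      _ = _ := by rw [Finset.sum_const, nsmul_eq_mul]
  · unfold JJ
    calc ∫⁻ v in B', lm δ b' F' v ^ p ≤ ∫⁻ v in B', lm δ b F v ^ p := by
          apply setLIntegral_mono' hB'
          intro v hv
          apply ENNReal.rpow_le_rpow _ hp.le
          have hkS : k v ∈ S := by
            rw [hS, Fintype.mem_piFinset]
            intro j
            have h1 : |b0 v j - b' v j| ≤ R + 2 := by
              calc |b0 v j - b' v j| ≤ |b0 v j| + |b' v j| := abs_sub _ _
                _ ≤ _ := add_le_add (hb0R v (hB1 hv) j) (hb2 v hv j)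
            have h2 : |(b0 v j - b' v j) / h| ≤ (R + 2) / h := by
              rw [abs_div, abs_of_pos hh0]
              gcongr
            rw [abs_le] at h2
            have h3 : (R + 2) / h ≤ ⌈(R + 2) / h⌉ := Int.le_ceil _
            have h4 : ((⌊(b0 v j - b' v j) / h⌋ : ℤ) : ℝ) ≤ (b0 v j - b' v j) / h := Int.floor_le _
            have h5 := Int.lt_floor_add_one ((b0 v j - b' v j) / h)
            rw [Finset.mem_Icc]
            constructor
            · have : ((-M : ℤ) : ℝ) ≤ ((k v j : ℤ) : ℝ) := by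
                simp only [hM, hk]
                push_cast
                linarith
              exact_mod_cast this
            · have : ((k v j : ℤ) : ℝ) ≤ ((M : ℤ) : ℝ) := by
                simp only [hM, hk]
                push_cast
                linarith
              exact_mod_cast this
          have e1 : b' v = b v + (0 : ℝ) • v - gv h (k v) := by
            simp only [hb, hv, if_true]
            module
          rw [← lm_translate (δ := δ) (b := b) (b' := b') (m := 0) e1 F]
          apply lm_mono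
          intro y
          simp only [hF]
          refine le_trans ?_ (le_iSup₂ (f := fun m (_ : m ∈ S) =>
            F' (y + WithLp.toLp 2 (gv h (k v), (0 : ℝ)) + WithLp.toLp 2 (-gv h m, (0 : ℝ))))
            (k v) hkS)
          have e9 : (WithLp.toLp 2 (gv h (k v), (0 : ℝ)) : Space d) +
              WithLp.toLp 2 (-gv h (k v), (0 : ℝ)) = 0 := by
            rw [← WithLp.toLp_add]
            simp only [Prod.mk_add_mk, add_neg_cancel, add_zero]
            exact WithLp.toLp_zero 2
          rw [add_assoc, e9, add_zero]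
      _ ≤ _ := lintegral_mono_set hB1

end Pool.Agent.X91.TY
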