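import Pool.Agent.X91.TY.Lsc

set_option autoImplicit false

/-!
Localization of families of lines, and their displacement into a neighbourhood of a given family.
-/

open MeasureTheory Set ENNReal NNReal Metric Filter Topology

namespace Pool.Agent.X91.TY

open Pool.Agent.H803R2.Kak Pool.Agent.H803R2.KakFTO

variable {d : ℕ}

theorem av_translate (δ : ℝ) (e a h : Space d) (F : Space d → ℝ≥0∞) :
    av δ e a (fun y => F (y + h)) = av δ e (a + h) F := by
  unfold av
  rw [vol_tube, vol_tube δ e (a + h)]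
  congr 1
  rw [← lintegral_indicator (isClosed_tube _ _ _).measurableSet,
    ← lintegral_indicator (isClosed_tube _ _ _).measurableSet]
  refine Eq.trans ?_ (lintegral_add_right_eq_self (μ := (volume : Measure (Space d)))
    (fun y => (tube δ e (a + h)).indicator F y) h)
  apply lintegral_congr
  intro y
  have h1 : y + h ∈ tube δ e (a + h) ↔ y ∈ tube δ e a := by
    rw [tube_eq, tube_eq δ e a]
    simp only [mem_preimage]
    have : y + h - (a + h) = y - a := by abel
    rw [this]
  by_cases hy : y ∈ tube δ e a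
  · rw [indicator_of_mem hy, indicator_of_mem (h1.2 hy)]
  · rw [indicator_of_notMem hy, indicator_of_notMem (fun h => hy (h1.1 h))]

theorem av_mono {δ : ℝ} {e a : Space d} {F G : Space d → ℝ≥0∞} (h : ∀ y, F y ≤ G y) :
    av δ e a F ≤ av δ e a G := by
  unfold av
  gcongr
  exact h _

theorem lm_mono {δ : ℝ} {b : Vec d → Vec d} {F G : Space d → ℝ≥0∞} (h : ∀ y, F y ≤ G y)
    (v : Vec d) : lm δ b F v ≤ lm δ b G v :=
  iSup_mono fun _ => av_mono h

theorem linePt_add (b : Vec d → Vec d) (v : Vec d) (s m : ℝ) (z : Vec d) {b' : Vec d → Vec d}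
    (h : b' v = b v + m • v - z) :
    linePt b' v s + WithLp.toLp 2 (z, m) = linePt b v (s + m) := by
  unfold linePt
  rw [← WithLp.toLp_add, h]
  congr 1
  ext1
  · simp only [Prod.mk_add_mk]
    module
  · simp

theorem lm_translate {δ : ℝ} {b b' : Vec d → Vec d} {v : Vec d} {m : ℝ} {z : Vec d}
    (h : b' v = b v + m • v - z) (F : Space d → ℝ≥0∞) :
    lm δ b' (fun y => F (y + WithLp.toLp 2 (z, m))) v = lm δ b F v := by
  unfold lm
  simp only [av_translate, linePt_add b v _ m z h]
  apply le_antisymm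
  · exact iSup_le fun s => le_iSup (fun s : ℝ => av δ (dir v) (linePt b v s) F) (s + m)
  · apply iSup_le
    intro s
    have := le_iSup (fun s : ℝ => av δ (dir v) (linePt b v (s + m)) F) (s - m)
    simpa using this

/-! ### Localization -/

/-- The cubes. -/
def QQ (i : ℤ × (Fin d → ℤ)) : Set (Space d) :=
  {y | |y.snd - i.1| ≤ 5 ∧ ∀ j, |y.fst j - i.2 j| ≤ 5}

/-- The directions of the lines which meet the cube. -/
def BB (b : Vec d → Vec d) (i : ℤ × (Fin d → ℤ)) : Set (Vec d) :=
  {v | ∀ j, |b v j + i.1 * v j - i.2 j| ≤ 2}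

theorem measurableSet_QQ (i : ℤ × (Fin d → ℤ)) : MeasurableSet (QQ i) := by
  have h1 : Continuous fun y : Space d => WithLp.ofLp y := WithLp.prod_continuous_ofLp 2 _ _
  have h2 : Continuous fun y : Space d => y.snd := continuous_snd.comp h1
  have h3 : Continuous fun y : Space d => y.fst := continuous_fst.comp h1
  have h4 : IsClosed {y : Space d | |y.snd - i.1| ≤ 5} :=
    isClosed_le (h2.sub continuous_const).abs continuous_const
  have h5 : IsClosed {y : Space d | ∀ j, |y.fst j - i.2 j| ≤ 5} := by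
    have : {y : Space d | ∀ j, |y.fst j - i.2 j| ≤ 5} =
        ⋂ j, {y : Space d | |y.fst j - i.2 j| ≤ 5} := by
      ext y; simp
    rw [this]
    apply isClosed_iInter
    intro j
    have h6 : Continuous fun y : Space d => y.fst j := by
      have : Continuous fun x : Vec d => x j := by fun_prop
      exact this.comp h3
    exact isClosed_le (h6.sub continuous_const).abs continuous_const
  exact h4.measurableSet.inter h5.measurableSet

theorem measurableSet_BB {b : Vec d → Vec d} (hb : Measurable b) (i : ℤ × (Fin d → ℤ)) :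
    MeasurableSet (BB b i) := by
  have : BB b i = ⋂ j, {v | |b v j + i.1 * v j - i.2 j| ≤ 2} := by
    ext v; simp [BB]
  rw [this]
  apply MeasurableSet.iInter
  intro j
  have h0 : Measurable fun x : Vec d => x j := by fun_prop
  have h1 : Measurable fun v : Vec d => b v j := h0.comp hb
  exact measurableSet_le (((h1.add (h0.const_mul _)).sub measurable_const).abs) measurable_const

theorem abs_coord_le (x : Vec d) (j : Fin d) : |x j| ≤ ‖x‖ := by
  have := PiLp.norm_apply_le x j
  rwa [Real.norm_eq_abs] at this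

theorem cube_of_tube {δ : ℝ} (hδ : 0 < δ) (hδ1 : δ < 1) (b : Vec d → Vec d) {v : Vec d}
    (hv : ‖v‖ ≤ 1) (s : ℝ) : ∃ i : ℤ × (Fin d → ℤ), v ∈ BB b i ∧
      tube δ (dir v) (linePt b v s) ⊆ QQ i := by
  refine ⟨(⌊s⌋, fun j => ⌊(b v + s • v) j⌋), ?_, ?_⟩
  · intro j
    have h1 : |(b v + s • v) j - ⌊(b v + s • v) j⌋| ≤ 1 := by
      rw [abs_of_nonneg (by linarith [Int.floor_le ((b v + s • v) j)])]
      linarith [Int.lt_floor_add_one ((b v + s • v) j)]
    have h2 : |s - ⌊s⌋| ≤ 1 := by
      rw [abs_of_nonneg (by linarith [Int.floor_le s])]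
      linarith [Int.lt_floor_add_one s]
    have h3 : |v j| ≤ 1 := (abs_coord_le v j).trans hv
    have h4 : b v j + (⌊s⌋ : ℝ) * v j - (⌊(b v + s • v) j⌋ : ℝ) =
        ((b v + s • v) j - ⌊(b v + s • v) j⌋) - (s - ⌊s⌋) * v j := by
      have : (b v + s • v) j = b v j + s * v j := by simp
      rw [this]
      ring
    simp only
    rw [h4]
    calc |((b v + s • v) j - ⌊(b v + s • v) j⌋) - (s - ⌊s⌋) * v j|
        ≤ |(b v + s • v) j - ⌊(b v + s • v) j⌋| + |(s - ⌊s⌋) * v j| := abs_sub _ _
      _ ≤ 1 + 1 * 1 := by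
          rw [abs_mul]
          gcongr
      _ = 2 := by norm_num
  · intro y hy
    obtain ⟨⟨z, t⟩, rfl⟩ := (WithLp.toLp_surjective 2) y
    obtain ⟨h1, h2⟩ := tube_subset hδ hδ1 b hv s hy
    have h0 : |s - ⌊s⌋| ≤ 1 := by
      rw [abs_of_nonneg (by linarith [Int.floor_le s])]
      linarith [Int.lt_floor_add_one s]
    have hts : |t - s| ≤ 3 / 2 := abs_le.2 ⟨by linarith [h1.1], by linarith [h1.2]⟩
    constructor
    · simp only
      calc |t - ⌊s⌋| = |(t - s) + (s - ⌊s⌋)| := by ring_nf
        _ ≤ |t - s| + |s - ⌊s⌋| := abs_add_le _ _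
        _ ≤ 5 := by linarith
    · intro j
      change |z j - (⌊(b v + s • v) j⌋ : ℝ)| ≤ 5
      have h3 : |(b v + s • v) j - ⌊(b v + s • v) j⌋| ≤ 1 := by
        rw [abs_of_nonneg (by linarith [Int.floor_le ((b v + s • v) j)])]
        linarith [Int.lt_floor_add_one ((b v + s • v) j)]
      have h4 : |v j| ≤ 1 := (abs_coord_le v j).trans hv
      have h5 : |(z - (b v + t • v)) j| ≤ 2 := by
        refine (abs_coord_le _ j).trans (h2.trans (by linarith))
      have h6 : z j - (⌊(b v + s • v) j⌋ : ℝ) = (z - (b v + t • v)) j + (t - s) * v j +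
          ((b v + s • v) j - ⌊(b v + s • v) j⌋) := by
        have e1 : (b v + s • v) j = b v j + s * v j := by simp
        have e2 : (z - (b v + t • v)) j = z j - (b v j + t * v j) := by simp
        rw [e1, e2]
        ring
      rw [h6]
      calc |(z - (b v + t • v)) j + (t - s) * v j + ((b v + s • v) j - ⌊(b v + s • v) j⌋)|
          ≤ |(z - (b v + t • v)) j + (t - s) * v j| + |(b v + s • v) j - ⌊(b v + s • v) j⌋| :=
            abs_add_le _ _
        _ ≤ |(z - (b v + t • v)) j| + |(t - s) * v j| +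
            |(b v + s • v) j - ⌊(b v + s • v) j⌋| := by
            gcongr
            exact abs_add_le _ _
        _ ≤ 2 + 3 / 2 * 1 + 1 := by
            rw [abs_mul]
            gcongr
        _ ≤ 5 := by norm_num

theorem card_le (x : ℝ) : (Finset.Icc ⌈x - 5⌉ ⌊x + 5⌋).card ≤ 11 := by
  rw [Int.card_Icc]
  have h1 : (⌊x + 5⌋ : ℝ) ≤ x + 5 := Int.floor_le _
  have h2 : x - 5 ≤ (⌈x - 5⌉ : ℝ) := Int.le_ceil _
  have h3 : ⌊x + 5⌋ + 1 - ⌈x - 5⌉ ≤ 11 := by
    have : ((⌊x + 5⌋ + 1 - ⌈x - 5⌉ : ℤ) : ℝ) ≤ ((11 : ℤ) : ℝ) := by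
      push_cast
      linarith
    exact_mod_cast this
  omega

theorem sum_QQ (y : Space d) (c : ℝ≥0∞) :
    ∑' i : ℤ × (Fin d → ℤ), (QQ i).indicator (fun _ => c) y ≤ 11 ^ (d + 1) * c := by
  classical
  set S : Finset (ℤ × (Fin d → ℤ)) := (Finset.Icc ⌈y.snd - 5⌉ ⌊y.snd + 5⌋) ×ˢ
    Fintype.piFinset (fun j => Finset.Icc ⌈y.fst j - 5⌉ ⌊y.fst j + 5⌋) with hS
  have h0 : ∀ i ∉ S, (QQ i).indicator (fun _ => c) y = 0 := by
    intro i hi
    apply indicator_of_notMem
    rintro ⟨h1, h2⟩
    apply hi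
    rw [hS, Finset.mem_product, Fintype.mem_piFinset]
    constructor
    · rw [Finset.mem_Icc, Int.ceil_le, Int.le_floor]
      rw [abs_le] at h1
      constructor <;> linarith
    · intro j
      rw [Finset.mem_Icc, Int.ceil_le, Int.le_floor]
      have h3 := h2 j
      rw [abs_le] at h3
      constructor <;> linarith
  have hcard : S.card ≤ 11 ^ (d + 1) := by
    rw [hS, Finset.card_product, Fintype.card_piFinset, pow_succ, mul_comm]
    refine Nat.mul_le_mul ?_ (card_le _)
    calc ∏ j : Fin d, (Finset.Icc ⌈y.fst j - 5⌉ ⌊y.fst j + 5⌋).card ≤ ∏ _j : Fin d, 11 :=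
          Finset.prod_le_prod' fun j _ => card_le _
      _ = 11 ^ d := by simp
  calc ∑' i : ℤ × (Fin d → ℤ), (QQ i).indicator (fun _ => c) y
      = ∑ i ∈ S, (QQ i).indicator (fun _ => c) y := tsum_eq_sum h0
    _ ≤ ∑ i ∈ S, c := Finset.sum_le_sum fun i _ => indicator_le_self _ _ _
    _ = S.card * c := by rw [Finset.sum_const, nsmul_eq_mul]
    _ ≤ _ := by
        gcongr
        exact_mod_cast hcard

theorem localize {δ p : ℝ} (hδ : 0 < δ) (hδ1 : δ < 1) (hp : 0 < p) {K : ℝ≥0∞} {b : Vec d → Vec d}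
    (hb : Measurable b) {F : Space d → ℝ≥0∞} (hF : Measurable F)
    (h : K * 11 ^ (d + 1) * ∫⁻ y, F y ^ p < JJ δ p b F) :
    ∃ (b' : Vec d → Vec d) (B' : Set (Vec d)) (F' : Space d → ℝ≥0∞), Measurable b' ∧
      MeasurableSet B' ∧ B' ⊆ closedBall 0 1 ∧ (∀ v ∈ B', ∀ j, |b' v j| ≤ 2) ∧ Measurable F' ∧
      K * ∫⁻ y, F' y ^ p < ∫⁻ v in B', lm δ b' F' v ^ p := by
  by_contra hcon
  push Not at hcon
  apply absurd h
  rw [not_lt]
  -- each cube
  have hcube : ∀ i : ℤ × (Fin d → ℤ), ∫⁻ v in closedBall 0 1 ∩ BB b i,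
      lm δ b ((QQ i).indicator F) v ^ p ≤ K * ∫⁻ y, (QQ i).indicator F y ^ p := by
    intro i
    set z : Vec d := WithLp.toLp 2 (fun j => (i.2 j : ℝ)) with hz
    set b' : Vec d → Vec d := fun v => b v + (i.1 : ℝ) • v - z with hb'
    set h0 : Space d := WithLp.toLp 2 (z, (i.1 : ℝ)) with hh0
    set F' : Space d → ℝ≥0∞ := fun y => (QQ i).indicator F (y + h0) with hF'
    have hF'm : Measurable F' := (hF.indicator (measurableSet_QQ i)).comp (measurable_add_const h0)
    have hb'm : Measurable b' := by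
      have e1 : Measurable fun v : Vec d => (i.1 : ℝ) • v := measurable_id.const_smul (i.1 : ℝ)
      exact (hb.add e1).sub measurable_const
    have hb'2 : ∀ v ∈ closedBall (0 : Vec d) 1 ∩ BB b i, ∀ j, |b' v j| ≤ 2 := by
      intro v hv j
      have h5 : b' v j = b v j + i.1 * v j - i.2 j := by
        simp only [hb', hz, PiLp.sub_apply, PiLp.add_apply, PiLp.smul_apply, smul_eq_mul]
      rw [h5]
      exact hv.2 j
    have h1 := hcon b' (closedBall 0 1 ∩ BB b i) F' hb'm
      (measurableSet_closedBall.inter (measurableSet_BB hb i)) inter_subset_left hb'2 hF'm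
    have h2 : ∫⁻ y, F' y ^ p = ∫⁻ y, (QQ i).indicator F y ^ p :=
      lintegral_add_right_eq_self (fun y => (QQ i).indicator F y ^ p) h0
    have h3 : ∀ v, lm δ b' F' v = lm δ b ((QQ i).indicator F) v := fun v =>
      lm_translate (b := b) (b' := b') (m := (i.1 : ℝ)) (z := z) rfl _
    rw [h2] at h1
    simp only [h3] at h1
    exact h1
  have hpt : ∀ v ∈ closedBall (0 : Vec d) 1, lm δ b F v ^ p ≤
      ∑' i : ℤ × (Fin d → ℤ), (BB b i).indicator
        (fun v => lm δ b ((QQ i).indicator F) v ^ p) v := by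
    intro v hv
    set T := ∑' i : ℤ × (Fin d → ℤ), (BB b i).indicator
        (fun v => lm δ b ((QQ i).indicator F) v ^ p) v with hT
    have h1 : lm δ b F v ≤ T ^ (1 / p) := by
      apply iSup_le
      intro s
      obtain ⟨i, hi1, hi2⟩ := cube_of_tube hδ hδ1 b (mem_closedBall_zero_iff.1 hv) s
      have h2 : av δ (dir v) (linePt b v s) F =
          av δ (dir v) (linePt b v s) ((QQ i).indicator F) := by
        unfold av
        congr 1
        apply setLIntegral_congr_fun (isClosed_tube _ _ _).measurableSet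
        intro y hy
        rw [indicator_of_mem (hi2 hy)]
      rw [h2]
      have h3 : av δ (dir v) (linePt b v s) ((QQ i).indicator F) ≤
          lm δ b ((QQ i).indicator F) v :=
        le_iSup (fun s : ℝ => av δ (dir v) (linePt b v s) ((QQ i).indicator F)) s
      refine h3.trans ?_
      have h4 : lm δ b ((QQ i).indicator F) v ^ p ≤ T := by
        have := ENNReal.le_tsum (f := fun i : ℤ × (Fin d → ℤ) => (BB b i).indicator
          (fun v => lm δ b ((QQ i).indicator F) v ^ p) v) i
        simp only [indicator_of_mem hi1] at this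
        exact this
      calc lm δ b ((QQ i).indicator F) v = (lm δ b ((QQ i).indicator F) v ^ p) ^ (1 / p) := by
            rw [← ENNReal.rpow_mul, mul_one_div_cancel hp.ne', ENNReal.rpow_one]
        _ ≤ _ := ENNReal.rpow_le_rpow h4 (by positivity)
    calc lm δ b F v ^ p ≤ (T ^ (1 / p)) ^ p := ENNReal.rpow_le_rpow h1 hp.le
      _ = T := by rw [← ENNReal.rpow_mul, one_div_mul_cancel hp.ne', ENNReal.rpow_one]
  have hQm : ∀ i : ℤ × (Fin d → ℤ), Measurable ((QQ i).indicator F) := fun i =>
    hF.indicator (measurableSet_QQ i)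
  unfold JJ
  calc ∫⁻ v in closedBall (0 : Vec d) 1, lm δ b F v ^ p
      ≤ ∫⁻ v in closedBall (0 : Vec d) 1, ∑' i : ℤ × (Fin d → ℤ), (BB b i).indicator
        (fun v => lm δ b ((QQ i).indicator F) v ^ p) v :=
        setLIntegral_mono' measurableSet_closedBall hpt
    _ = ∑' i : ℤ × (Fin d → ℤ), ∫⁻ v in closedBall (0 : Vec d) 1, (BB b i).indicator
        (fun v => lm δ b ((QQ i).indicator F) v ^ p) v := by
        apply lintegral_tsum
        intro i
        exact (((measurable_lm hb (hQm i)).pow_const p).indicator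
          (measurableSet_BB hb i)).aemeasurable
    _ ≤ ∑' i : ℤ × (Fin d → ℤ), K * ∫⁻ y, (QQ i).indicator F y ^ p := by
        apply ENNReal.tsum_le_tsum
        intro i
        rw [lintegral_indicator (measurableSet_BB hb i),
          Measure.restrict_restrict (measurableSet_BB hb i), inter_comm]
        exact hcube i
    _ = K * ∫⁻ y, ∑' i : ℤ × (Fin d → ℤ), (QQ i).indicator F y ^ p := by
        rw [ENNReal.tsum_mul_left, lintegral_tsum fun i => ((hQm i).pow_const p).aemeasurable]
    _ ≤ K * ∫⁻ y, 11 ^ (d + 1) * F y ^ p := by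
        gcongr with y
        have h1 : ∀ i : ℤ × (Fin d → ℤ), (QQ i).indicator F y ^ p =
            (QQ i).indicator (fun _ => F y ^ p) y := by
          intro i
          by_cases hy : y ∈ QQ i
          · rw [indicator_of_mem hy, indicator_of_mem hy]
          · rw [indicator_of_notMem hy, indicator_of_notMem hy, ENNReal.zero_rpow_of_pos hp]
        simp only [h1]
        exact sum_QQ y _
    _ = _ := by
        rw [lintegral_const_mul _ (hF.pow_const p), mul_assoc]

end Pool.Agent.X91.TY
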