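import Pool.Agent.X91.TY.Sel
import Pool.Agent.X91.TY.Good
import Pool.Agent.X91.KT.LB3

set_option autoImplicit false

/-!
Bad scales of typical families; one bad function.
-/

open MeasureTheory Set ENNReal NNReal Metric Filter Topology

namespace Pool.Agent.X91.TY

open Pool.Agent.H803R2.Kak Pool.Agent.H803R2.KakFTO

variable {d : ℕ}

theorem vol_tubeE {δ : ℝ} (hδ : 0 < δ) (hδ1 : δ < 1)
    (a e : EuclideanSpace ℝ (Fin (d + 1))) (he : ‖e‖ = 1) :
    volume (tubeE δ e a) ≠ 0 ∧ volume (tubeE δ e a) ≠ ∞ := by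
  obtain ⟨κ, hκ, hV⟩ := Pool.Agent.W131.HM.VOL d
  obtain ⟨h1, h2⟩ := hV a e δ he hδ hδ1.le
  refine ⟨?_, h2⟩
  intro h
  rw [show Pool.Agent.W46.KK.tube δ a e = tubeE δ e a from rfl, h, nonpos_iff_eq_zero,
    ENNReal.ofReal_eq_zero] at h1
  have : 0 < κ * δ ^ d := by positivity
  linarith

/-- The logarithmic loss is necessary. -/
theorem low (d : ℕ) : ∃ c : ℝ, 0 < c ∧ ∀ δ : ℝ, 0 < δ → δ < 1 → ∀ p : ℝ, 0 < p → ∀ K : ℝ≥0∞,
    (∀ G : EuclideanSpace ℝ (Fin (d + 1)) → ℝ≥0∞, Measurable G →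
      ∫⁻ e : sphere (0 : EuclideanSpace ℝ (Fin (d + 1))) 1, kE δ G e ^ p
        ∂(volume : Measure (EuclideanSpace ℝ (Fin (d + 1)))).toSphere ≤ K * ∫⁻ y, G y ^ p) →
    ENNReal.ofReal (c * (1 + Real.log (1 / δ)) ^ d) ≤ K := by
  obtain ⟨C, hC, hE⟩ := Pool.Agent.X91.LB.small_union d
  set σ : Measure (sphere (0 : EuclideanSpace ℝ (Fin (d + 1))) 1) :=
    (volume : Measure (EuclideanSpace ℝ (Fin (d + 1)))).toSphere with hσ
  set s : ℝ := (σ univ).toReal with hs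
  have hst : σ univ ≠ ∞ := measure_ne_top _ _
  have hs0 : 0 < s := by
    apply ENNReal.toReal_pos _ hst
    intro h
    rw [Measure.measure_univ_eq_zero] at h
    exact Measure.toSphere_ne_zero (μ := (volume : Measure (EuclideanSpace ℝ (Fin (d + 1))))) h
  have hss : σ univ = ENNReal.ofReal s := (ENNReal.ofReal_toReal hst).symm
  refine ⟨s / C, by positivity, ?_⟩
  intro δ hδ hδ1 p hp K hK
  have hlog : 0 ≤ Real.log (1 / δ) := Real.log_nonneg (by rw [le_div_iff₀ hδ]; linarith)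
  obtain ⟨E, h1, h2, h3⟩ := hE δ hδ hδ1
  have hEm : MeasurableSet E := h1.measurableSet
  have hE0 : volume E ≠ 0 := by
    intro h0
    obtain ⟨a, ha⟩ := h3 (EuclideanSpace.single 0 1) (by simp)
    exact (vol_tubeE hδ hδ1 a _ (by simp)).1 (measure_mono_null ha h0)
  have hEt : volume E ≠ ∞ := h1.measure_lt_top.ne
  have h4 := hK (E.indicator fun _ => 1) (measurable_const.indicator hEm)
  have hpow : ∀ y, E.indicator (fun _ => (1 : ℝ≥0∞)) y ^ p = E.indicator 1 y := by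
    intro y
    by_cases hy : y ∈ E
    · simp [hy]
    · simp [hy, hp]
  simp only [hpow] at h4
  rw [lintegral_indicator_one hEm] at h4
  have h5 : ENNReal.ofReal s ≤ ∫⁻ e, kE δ (E.indicator fun _ => 1) e ^ p ∂σ := by
    rw [← hss, ← lintegral_one]
    apply lintegral_mono
    intro e
    have he : ‖(e : EuclideanSpace ℝ (Fin (d + 1)))‖ = 1 := by simp
    obtain ⟨a, ha⟩ := h3 e he
    obtain ⟨h6, h7⟩ := vol_tubeE hδ hδ1 a _ he
    have hTm : MeasurableSet (tubeE δ (e : EuclideanSpace ℝ (Fin (d + 1))) a) :=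
      (Pool.Agent.W46.KK.tube_isClosed δ a e).measurableSet
    have h8 : 1 ≤ kE δ (E.indicator fun _ => 1) e := by
      have h9 : (volume (tubeE δ (e : EuclideanSpace ℝ (Fin (d + 1))) a))⁻¹ *
          ∫⁻ y in tubeE δ (e : EuclideanSpace ℝ (Fin (d + 1))) a,
            E.indicator (fun _ => (1 : ℝ≥0∞)) y = 1 := by
        have : ∫⁻ y in tubeE δ (e : EuclideanSpace ℝ (Fin (d + 1))) a,
            E.indicator (fun _ => (1 : ℝ≥0∞)) y =
            ∫⁻ y in tubeE δ (e : EuclideanSpace ℝ (Fin (d + 1))) a, 1 := by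
          refine setLIntegral_congr_fun hTm fun y hy => ?_
          simp [ha hy]
        rw [this, setLIntegral_one, ENNReal.inv_mul_cancel h6 h7]
      refine h9.symm.le.trans ?_
      exact le_iSup (fun a => (volume (tubeE δ (e : EuclideanSpace ℝ (Fin (d + 1))) a))⁻¹ *
        ∫⁻ y in tubeE δ (e : EuclideanSpace ℝ (Fin (d + 1))) a,
          E.indicator (fun _ => (1 : ℝ≥0∞)) y) a
    exact ENNReal.one_le_rpow h8 hp
  have h6 : ENNReal.ofReal (s / C * (1 + Real.log (1 / δ)) ^ d) * volume E ≤ K * volume E := by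
    refine le_trans ?_ (h5.trans h4)
    calc ENNReal.ofReal (s / C * (1 + Real.log (1 / δ)) ^ d) * volume E
        ≤ ENNReal.ofReal (s / C * (1 + Real.log (1 / δ)) ^ d) *
          ENNReal.ofReal (C * (1 / (1 + Real.log (1 / δ))) ^ d) := by gcongr
      _ = ENNReal.ofReal s := by
          rw [← ENNReal.ofReal_mul (by positivity)]
          congr 1
          have : 0 < 1 + Real.log (1 / δ) := by linarith
          generalize 1 + Real.log (1 / δ) = X at this ⊢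
          rw [one_div, inv_pow]
          field_simp
  exact (ENNReal.mul_le_mul_iff_left hE0 hEt).1 h6

/-- Bad scales of typical families. -/
theorem bad_scales {p : ℝ} (hp : 1 ≤ p) {h : ℝ → ℝ} (hh : Tendsto h (𝓝[>] 0) atTop) :
    ∀ᶠ b in residual (Fam d), ∀ m : ℕ, ∃ δ : ℝ, 0 < δ ∧ δ < 1 ∧ δ < 1 / (m + 1) ∧ 0 < h δ ∧
      Bad δ p (ENNReal.ofReal ((1 + Real.log (1 / δ)) ^ d / h δ)) (ex b) := by
  classical
  have hp0 : 0 < p := by linarith
  rw [eventually_countable_forall]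
  intro m
  set V : ℝ≥0∞ := volume (closedBall (0 : Vec d) 1) with hV
  set Φ : ℝ → ℝ≥0∞ := fun δ => if δ < 1 / (m + 1) ∧ 0 < h δ then
    ENNReal.ofReal ((1 + Real.log (1 / δ)) ^ d / h δ) else V * (v0 d δ)⁻¹ with hΦ
  have hV0 : V ≠ 0 := (measure_closedBall_pos _ _ one_pos).ne'
  have hΦ0 : ∀ δ, 0 < δ → δ < 1 → Φ δ ≠ 0 := by
    intro δ hδ hδ1
    have hlog : 0 ≤ Real.log (1 / δ) := Real.log_nonneg (by rw [le_div_iff₀ hδ]; linarith)
    simp only [hΦ]
    split_ifs with h1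
    · obtain ⟨_, h2⟩ := h1
      rw [Ne, ENNReal.ofReal_eq_zero, not_le]
      positivity
    · refine mul_ne_zero hV0 (ENNReal.inv_ne_zero.2 ?_)
      unfold v0
      exact ENNReal.mul_ne_top ENNReal.ofReal_ne_top measure_closedBall_lt_top.ne
  rcases zero_one (d := d) hp0 Φ with ⟨C, hC⟩ | hbad
  · exfalso
    obtain ⟨N, hN⟩ := sphere_of_fam d
    obtain ⟨c, hc, hlow⟩ := low d
    set A : ℝ := N * 2 ^ p * (C + 1) with hA
    have hev : ∀ᶠ δ in 𝓝[>] (0 : ℝ), A / c + 1 ≤ h δ := hh.eventually_ge_atTop _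
    have hev2 : ∀ᶠ δ in 𝓝[>] (0 : ℝ), δ ∈ Ioo (0 : ℝ) (min 1 (1 / (m + 1))) :=
      Ioo_mem_nhdsGT (lt_min one_pos (by positivity))
    obtain ⟨δ, h1, h2⟩ := (hev.and hev2).exists
    have hδ := h2.1
    have hδ1 : δ < 1 := lt_of_lt_of_le h2.2 (min_le_left _ _)
    have hδm : δ < 1 / (m + 1) := lt_of_lt_of_le h2.2 (min_le_right _ _)
    have hA0 : 0 ≤ A := by positivity
    have hAc : 0 ≤ A / c := by positivity
    have hh0 : 0 < h δ := by linarith
    have hlog : 0 ≤ Real.log (1 / δ) := Real.log_nonneg (by rw [le_div_iff₀ hδ]; linarith)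
    have h3 := hN δ p ((C + 1 : ℕ) * Φ δ) hδ hδ1 hp
      (mul_ne_zero (by exact_mod_cast Nat.succ_ne_zero C) (hΦ0 δ hδ hδ1)) (by
        intro b hb F hF
        refine (hC b hb δ hδ hδ1 F hF).trans ?_
        gcongr
        omega)
    have h4 := hlow δ hδ hδ1 p hp0 _ h3
    have h5 : Φ δ = ENNReal.ofReal ((1 + Real.log (1 / δ)) ^ d / h δ) := by
      simp only [hΦ]
      rw [if_pos ⟨hδm, hh0⟩]
    have h6 : (N : ℝ≥0∞) * 2 ^ p * ((C + 1 : ℕ) * Φ δ) =
        ENNReal.ofReal (A * ((1 + Real.log (1 / δ)) ^ d / h δ)) := by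
      have e1 : (2 : ℝ≥0∞) ^ p = ENNReal.ofReal (2 ^ p) := by
        rw [← ENNReal.ofReal_rpow_of_nonneg (by norm_num) hp0.le, ENNReal.ofReal_ofNat]
      rw [h5, hA, ENNReal.ofReal_mul (by positivity), ENNReal.ofReal_mul (by positivity),
        ENNReal.ofReal_mul (by positivity), ENNReal.ofReal_natCast, ← e1]
      have e2 : ENNReal.ofReal ((C : ℝ) + 1) = ((C + 1 : ℕ) : ℝ≥0∞) := by
        rw [← ENNReal.ofReal_natCast]; push_cast; rfl
      rw [e2]
      ring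
    rw [h6] at h4
    have hX : 0 < (1 + Real.log (1 / δ)) ^ d := by positivity
    rw [ENNReal.ofReal_le_ofReal_iff (by positivity)] at h4
    have h7 : c * h δ ≤ A := by
      have h8 : c * (1 + Real.log (1 / δ)) ^ d ≤ A / h δ * (1 + Real.log (1 / δ)) ^ d := by
        calc _ ≤ _ := h4
          _ = _ := by ring
      have h9 := le_of_mul_le_mul_right h8 hX
      rwa [le_div_iff₀ hh0] at h9
    have h8 : A + c ≤ c * h δ := by
      calc A + c = c * (A / c + 1) := by field_simp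
        _ ≤ _ := by gcongr
    linarith
  · filter_upwards [hbad] with b hb
    obtain ⟨δ, hδ, hδ1, F, hF, h1⟩ := hb 1
    rw [Nat.cast_one, one_mul] at h1
    by_cases h2 : δ < 1 / (m + 1) ∧ 0 < h δ
    · refine ⟨δ, hδ, hδ1, h2.1, h2.2, F, hF, ?_⟩
      simp only [hΦ] at h1
      rwa [if_pos h2] at h1
    · exfalso
      simp only [hΦ] at h1
      rw [if_neg h2] at h1
      exact absurd (JJ_triv hδ hδ1 hp (ex b) measurableSet_closedBall subset_rfl hF) (not_le.2 h1)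

theorem lm_const_mul {δ : ℝ} (b : Vec d → Vec d) {F : Space d → ℝ≥0∞} (hF : Measurable F)
    (c : ℝ≥0∞) (v : Vec d) : lm δ b (fun y => c * F y) v = c * lm δ b F v := by
  unfold lm av
  rw [ENNReal.mul_iSup]
  congr 1
  ext s
  rw [lintegral_const_mul _ hF]
  ring

/-- One bad function. -/
theorem one_function {p : ℝ} (hp : 1 ≤ p) {Φ : ℝ → ℝ≥0∞} (hΦ : ∀ δ, 0 < δ → δ < 1 → Φ δ ≠ 0)
    {b : Vec d → Vec d} (hb : Measurable b)
    (h : ∀ M : ℕ, ∃ δ : ℝ, 0 < δ ∧ δ < 1 ∧ Bad δ p (M * Φ δ) b) :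
    ∃ F : Space d → ℝ≥0∞, Measurable F ∧ ∫⁻ y, F y ^ p ≤ 1 ∧
      ∀ M : ℕ, ∃ δ : ℝ, 0 < δ ∧ δ < 1 ∧ M * Φ δ < JJ δ p b F := by
  have hp0 : 0 < p := by linarith
  have hk : ∀ k : ℕ, ∃ δ : ℝ, 0 < δ ∧ δ < 1 ∧ ∃ G : Space d → ℝ≥0∞, Measurable G ∧
      ∫⁻ y, G y ^ p = 2⁻¹ ^ (k + 1) ∧ (k + 1 : ℕ) * Φ δ < JJ δ p b G := by
    intro k
    obtain ⟨δ, hδ, hδ1, F, hF, h1⟩ := h ((k + 1) * 2 ^ (k + 1))
    set I := ∫⁻ y, F y ^ p with hI
    have hI0 : I ≠ 0 := by
      intro h0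
      have h2 := JJ_triv hδ hδ1 hp b measurableSet_closedBall subset_rfl hF
      rw [← hI, h0, mul_zero] at h2
      exact absurd h1 (not_lt.2 (h2.trans zero_le))
    have hM0 : (((k + 1) * 2 ^ (k + 1) : ℕ) : ℝ≥0∞) * Φ δ ≠ 0 := by
      apply mul_ne_zero _ (hΦ δ hδ hδ1)
      exact_mod_cast (by positivity : (k + 1) * 2 ^ (k + 1) ≠ 0)
    have hIt : I ≠ ∞ := by
      intro ht
      rw [ht, ENNReal.mul_top hM0] at h1
      exact absurd h1 not_top_lt
    set c : ℝ≥0∞ := (2⁻¹ ^ (k + 1) / I) ^ (1 / p) with hc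
    have hcp : c ^ p = 2⁻¹ ^ (k + 1) / I := by
      rw [hc, ← ENNReal.rpow_mul, one_div_mul_cancel hp0.ne', ENNReal.rpow_one]
    have h2t : (2⁻¹ : ℝ≥0∞) ^ (k + 1) ≠ 0 := pow_ne_zero _ (by simp)
    have h2t' : (2⁻¹ : ℝ≥0∞) ^ (k + 1) ≠ ∞ := ENNReal.pow_ne_top (by simp)
    have hcp0 : c ^ p ≠ 0 := by
      rw [hcp]
      exact (ENNReal.div_ne_zero.2 ⟨h2t, hIt⟩)
    have hcpt : c ^ p ≠ ∞ := by
      rw [hcp]
      exact ENNReal.div_ne_top h2t' hI0
    refine ⟨δ, hδ, hδ1, fun y => c * F y, hF.const_mul c, ?_, ?_⟩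
    · have e1 : ∀ y, (c * F y) ^ p = c ^ p * F y ^ p := fun y =>
        ENNReal.mul_rpow_of_nonneg _ _ hp0.le
      simp only [e1]
      rw [lintegral_const_mul _ (hF.pow_const p), hcp, ← hI, ENNReal.div_mul_cancel hI0 hIt]
    · have e1 : JJ δ p b (fun y => c * F y) = c ^ p * JJ δ p b F := by
        unfold JJ
        have e2 : ∀ v, lm δ b (fun y => c * F y) v ^ p = c ^ p * lm δ b F v ^ p := by
          intro v
          rw [lm_const_mul b hF, ENNReal.mul_rpow_of_nonneg _ _ hp0.le]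
        simp only [e2]
        rw [lintegral_const_mul _ ((measurable_lm hb hF).pow_const p)]
      rw [e1]
      have e3 : ((k + 1 : ℕ) : ℝ≥0∞) * Φ δ =
          c ^ p * ((((k + 1) * 2 ^ (k + 1) : ℕ) : ℝ≥0∞) * Φ δ * I) := by
        rw [hcp]
        have e4 : (2⁻¹ : ℝ≥0∞) ^ (k + 1) * 2 ^ (k + 1) = 1 := by
          rw [← mul_pow, ENNReal.inv_mul_cancel (by simp) (by simp), one_pow]
        have e5 : (2⁻¹ : ℝ≥0∞) ^ (k + 1) / I * I = 2⁻¹ ^ (k + 1) := ENNReal.div_mul_cancel hI0 hIt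
        calc ((k + 1 : ℕ) : ℝ≥0∞) * Φ δ
            = ((k + 1 : ℕ) : ℝ≥0∞) * Φ δ * ((2⁻¹ : ℝ≥0∞) ^ (k + 1) * 2 ^ (k + 1)) := by
              rw [e4, mul_one]
          _ = ((k + 1 : ℕ) : ℝ≥0∞) * Φ δ * (((2⁻¹ : ℝ≥0∞) ^ (k + 1) / I * I) * 2 ^ (k + 1)) := by
              rw [e5]
          _ = _ := by
              push_cast
              ring
      rw [e3]
      exact ENNReal.mul_lt_mul_right hcp0 hcpt h1
  choose δ hδ hδ1 G hG hGI hGJ using hk
  set F : Space d → ℝ≥0∞ := fun y => ⨆ k, G k y with hF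
  have hFm : Measurable F := Measurable.iSup hG
  refine ⟨F, hFm, ?_, ?_⟩
  · calc ∫⁻ y, F y ^ p ≤ ∫⁻ y, ∑' k, G k y ^ p := by
          apply lintegral_mono
          intro y
          have h1 : F y ≤ (∑' k, G k y ^ p) ^ (1 / p) := by
            apply iSup_le
            intro k
            calc G k y = (G k y ^ p) ^ (1 / p) := by
                  rw [← ENNReal.rpow_mul, mul_one_div_cancel hp0.ne', ENNReal.rpow_one]
              _ ≤ _ := ENNReal.rpow_le_rpow (ENNReal.le_tsum (f := fun k => G k y ^ p) k)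
                  (by positivity)
          calc F y ^ p ≤ ((∑' k, G k y ^ p) ^ (1 / p)) ^ p := ENNReal.rpow_le_rpow h1 hp0.le
            _ = _ := by rw [← ENNReal.rpow_mul, one_div_mul_cancel hp0.ne', ENNReal.rpow_one]
      _ = ∑' k, ∫⁻ y, G k y ^ p := lintegral_tsum fun k => ((hG k).pow_const p).aemeasurable
      _ = ∑' k : ℕ, (2⁻¹ : ℝ≥0∞) ^ (k + 1) := by simp only [hGI]
      _ ≤ 1 := by
          rw [ENNReal.tsum_geometric_add_one, ENNReal.one_sub_inv_two, inv_inv,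
            ENNReal.inv_mul_cancel (by simp) (by simp)]
  · intro M
    refine ⟨δ M, hδ M, hδ1 M, ?_⟩
    calc (M : ℝ≥0∞) * Φ (δ M) ≤ (M + 1 : ℕ) * Φ (δ M) := by
          gcongr
          omega
      _ < JJ (δ M) p b (G M) := hGJ M
      _ ≤ JJ (δ M) p b F := by
          unfold JJ
          apply lintegral_mono
          intro v
          apply ENNReal.rpow_le_rpow _ hp0.le
          exact lm_mono (fun y => le_iSup (fun k => G k y) M) v

end Pool.Agent.X91.TY
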