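import Pool.Agent.H803R2.KakFTO

set_option autoImplicit false

/-!
Averages over tubes are lower semicontinuous in the centre.
-/

open MeasureTheory Set ENNReal NNReal Metric Filter Topology

namespace Pool.Agent.X91.TY

open Pool.Agent.H803R2.Kak Pool.Agent.H803R2.KakFTO

variable {d : ℕ}

/-- The average of `F` over the tube. -/
noncomputable def av (δ : ℝ) (e a : Space d) (F : Space d → ℝ≥0∞) : ℝ≥0∞ :=
  (volume (tube δ e a))⁻¹ * ∫⁻ y in tube δ e a, F y

theorem tube_eq (δ : ℝ) (e a : Space d) : tube δ e a = (fun y => y - a) ⁻¹' tube δ e 0 := by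
  ext y
  simp [tube]

theorem vol_tube (δ : ℝ) (e a : Space d) : volume (tube δ e a) = volume (tube δ e 0) := by
  rw [tube_eq]
  simp only [sub_eq_add_neg]
  exact measure_preimage_add_right volume (-a) _

theorem isClosed_tube (δ : ℝ) (e a : Space d) : IsClosed (tube δ e a) := by
  have c1 : Continuous (fun y : Space d => |(inner ℝ (y - a) e : ℝ)|) := by fun_prop
  have c2 : Continuous (fun y : Space d => ‖(y - a) - (inner ℝ (y - a) e : ℝ) • e‖) := by fun_prop
  exact (isClosed_le c1 continuous_const).inter (isClosed_le c2 continuous_const)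

theorem convex_tube (δ : ℝ) (e a : Space d) : Convex ℝ (tube δ e a) := by
  rintro x ⟨hx1, hx2⟩ y ⟨hy1, hy2⟩ s t hs ht hst
  have e1 : s • x + t • y - a = s • (x - a) + t • (y - a) := by
    have : a = (s + t) • a := by rw [hst, one_smul]
    conv_lhs => rw [this]
    rw [add_smul, smul_sub, smul_sub]
    abel
  have e2 : (inner ℝ (s • (x - a) + t • (y - a)) e : ℝ) =
      s * inner ℝ (x - a) e + t * inner ℝ (y - a) e := by
    rw [inner_add_left, real_inner_smul_left, real_inner_smul_left]
  constructor
  · rw [e1, e2]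
    calc |s * inner ℝ (x - a) e + t * inner ℝ (y - a) e|
        ≤ |s * inner ℝ (x - a) e| + |t * inner ℝ (y - a) e| := abs_add_le _ _
      _ = s * |inner ℝ (x - a) e| + t * |inner ℝ (y - a) e| := by
          rw [abs_mul, abs_mul, abs_of_nonneg hs, abs_of_nonneg ht]
      _ ≤ s * (1 / 2) + t * (1 / 2) := by gcongr
      _ = 1 / 2 := by rw [← add_mul, hst, one_mul]
  · rw [e1, e2]
    have e3 : s • (x - a) + t • (y - a) - (s * inner ℝ (x - a) e + t * inner ℝ (y - a) e) • e =
        s • ((x - a) - (inner ℝ (x - a) e : ℝ) • e) +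
          t • ((y - a) - (inner ℝ (y - a) e : ℝ) • e) := by module
    rw [e3]
    calc ‖s • ((x - a) - (inner ℝ (x - a) e : ℝ) • e) +
          t • ((y - a) - (inner ℝ (y - a) e : ℝ) • e)‖
        ≤ ‖s • ((x - a) - (inner ℝ (x - a) e : ℝ) • e)‖ +
          ‖t • ((y - a) - (inner ℝ (y - a) e : ℝ) • e)‖ := norm_add_le _ _
      _ = s * ‖(x - a) - (inner ℝ (x - a) e : ℝ) • e‖ +
          t * ‖(y - a) - (inner ℝ (y - a) e : ℝ) • e‖ := by
          rw [norm_smul, norm_smul, Real.norm_of_nonneg hs, Real.norm_of_nonneg ht]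
      _ ≤ s * δ + t * δ := by gcongr
      _ = δ := by rw [← add_mul, hst, one_mul]

theorem int_interior (δ : ℝ) (e a : Space d) (F : Space d → ℝ≥0∞) :
    ∫⁻ y in tube δ e a, F y = ∫⁻ y in interior (tube δ e a), F y := by
  apply setLIntegral_congr
  exact (interior_ae_eq_of_null_frontier ((convex_tube δ e a).addHaar_frontier volume)).symm

/-- Lower semicontinuity in the centre. -/
theorem int_lsc {δ : ℝ} {e a : Space d} {c : ℕ → Space d} (hc : Tendsto c atTop (𝓝 a))
    {F : Space d → ℝ≥0∞} (hF : Measurable F) :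
    ∫⁻ y in tube δ e a, F y ≤ liminf (fun k => ∫⁻ y in tube δ e (c k), F y) atTop := by
  rw [int_interior]
  have h1 : ∀ k, ∫⁻ y in tube δ e (c k), F y = ∫⁻ y, (tube δ e (c k)).indicator F y := fun k =>
    (lintegral_indicator (isClosed_tube _ _ _).measurableSet _).symm
  simp only [h1]
  rw [← lintegral_indicator isOpen_interior.measurableSet]
  refine le_trans ?_ (lintegral_liminf_le fun k =>
    hF.indicator (isClosed_tube _ _ _).measurableSet)
  apply lintegral_mono
  intro y
  by_cases hy : y ∈ interior (tube δ e a)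
  · rw [indicator_of_mem hy]
    have h2 : Tendsto (fun k => y - (c k - a)) atTop (𝓝 (y - (a - a))) :=
      tendsto_const_nhds.sub (hc.sub tendsto_const_nhds)
    rw [sub_self, sub_zero] at h2
    have h3 : ∀ᶠ k in atTop, y - (c k - a) ∈ interior (tube δ e a) :=
      h2.eventually (isOpen_interior.mem_nhds hy)
    have h4 : ∀ᶠ k in atTop, F y ≤ (tube δ e (c k)).indicator F y := by
      filter_upwards [h3] with k hk
      have h5 := interior_subset hk
      rw [tube_eq] at h5
      have h6 : y ∈ tube δ e (c k) := by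
        rw [tube_eq]
        simp only [mem_preimage] at h5 ⊢
        have : y - (c k - a) - a = y - c k := by abel
        rwa [this] at h5
      rw [indicator_of_mem h6]
    exact le_liminf_of_le (by isBoundedDefault) h4
  · rw [indicator_of_notMem hy]
    exact zero_le

theorem av_eq {δ : ℝ} {e a : Space d} {F : Space d → ℝ≥0∞} (hF : Measurable F) :
    av δ e a F = ∫⁻ y in tube δ e a, (volume (tube δ e 0))⁻¹ * F y := by
  unfold av
  rw [lintegral_const_mul _ hF, vol_tube]

theorem av_lsc {δ : ℝ} {e a : Space d} {c : ℕ → Space d} (hc : Tendsto c atTop (𝓝 a))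
    {F : Space d → ℝ≥0∞} (hF : Measurable F) :
    av δ e a F ≤ liminf (fun k => av δ e (c k) F) atTop := by
  simp only [av_eq hF]
  exact int_lsc hc (hF.const_mul _)

/-- The averages over the tubes of a measurable family. -/
theorem measurable_av {V : Type*} [MeasurableSpace V] {δ : ℝ} {e c : V → Space d}
    (he : Measurable e) (hc : Measurable c) {F : Space d → ℝ≥0∞} (hF : Measurable F) :
    Measurable fun v => av δ (e v) (c v) F := by
  have hset : MeasurableSet {p : V × Space d | p.2 ∈ tube δ (e p.1) (c p.1)} := by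
    have h1 : Measurable fun p : V × Space d => p.2 - c p.1 :=
      measurable_snd.sub (hc.comp measurable_fst)
    have h2 : Measurable fun p : V × Space d => (inner ℝ (p.2 - c p.1) (e p.1) : ℝ) :=
      h1.inner (he.comp measurable_fst)
    have h3 : Measurable fun p : V × Space d =>
        ‖(p.2 - c p.1) - (inner ℝ (p.2 - c p.1) (e p.1) : ℝ) • e p.1‖ :=
      (h1.sub (h2.smul (he.comp measurable_fst))).norm
    exact (measurableSet_le h2.abs measurable_const).inter (measurableSet_le h3 measurable_const)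
  have hint : ∀ {G : Space d → ℝ≥0∞}, Measurable G →
      Measurable fun v => ∫⁻ y in tube δ (e v) (c v), G y := by
    intro G hG
    have h4 : Measurable fun p : V × Space d =>
        ({p : V × Space d | p.2 ∈ tube δ (e p.1) (c p.1)}).indicator (fun p => G p.2) p :=
      (hG.comp measurable_snd).indicator hset
    have h5 := h4.lintegral_prod_right' (ν := (volume : Measure (Space d)))
    have h6 : (fun v => ∫⁻ y in tube δ (e v) (c v), G y) = fun v => ∫⁻ y,
        ({p : V × Space d | p.2 ∈ tube δ (e p.1) (c p.1)}).indicator (fun p => G p.2) (v, y) := by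
      funext v
      rw [← lintegral_indicator (isClosed_tube _ _ _).measurableSet]
      apply lintegral_congr
      intro y
      by_cases hy : y ∈ tube δ (e v) (c v)
      · rw [indicator_of_mem hy, indicator_of_mem (show (v, y) ∈ {p : V × Space d |
          p.2 ∈ tube δ (e p.1) (c p.1)} from hy)]
      · rw [indicator_of_notMem hy, indicator_of_notMem (show (v, y) ∉ {p : V × Space d |
          p.2 ∈ tube δ (e p.1) (c p.1)} from hy)]
    rw [h6]
    exact h5
  have h6 : Measurable fun v => volume (tube δ (e v) (c v)) := by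
    have := hint (G := fun _ => 1) measurable_const
    simpa using this
  exact h6.inv.mul (hint hF)

/-- The supremum of the averages over the tubes of the line number `v`. -/
noncomputable def lm (δ : ℝ) (b : Vec d → Vec d) (F : Space d → ℝ≥0∞) (v : Vec d) : ℝ≥0∞ :=
  ⨆ s : ℝ, av δ (dir v) (linePt b v s) F

theorem lineMax_eq (δ : ℝ) (b : Vec d → Vec d) (f : Space d → ℝ) (v : Vec d) :
    lineMax δ b f v = lm δ b (fun y => ‖f y‖ₑ) v := rfl

theorem tendsto_linePt {b : Vec d → Vec d} {c : ℕ → Vec d → Vec d} {v : Vec d} {s : ℝ}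
    {r : ℕ → ℝ} (hc : Tendsto (fun k => c k v) atTop (𝓝 (b v))) (hr : Tendsto r atTop (𝓝 s)) :
    Tendsto (fun k => linePt (c k) v (r k)) atTop (𝓝 (linePt b v s)) := by
  unfold linePt
  have h1 : Tendsto (fun k => (c k v + r k • v, r k)) atTop (𝓝 (b v + s • v, s)) :=
    (hc.add (hr.smul_const v)).prodMk_nhds hr
  exact ((WithLp.prod_continuous_toLp 2 (Vec d) ℝ).tendsto _).comp h1

/-- Rational heights suffice. -/
theorem lm_rat {δ : ℝ} (b : Vec d → Vec d) {F : Space d → ℝ≥0∞} (hF : Measurable F) (v : Vec d) :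
    lm δ b F v = ⨆ q : ℚ, av δ (dir v) (linePt b v q) F := by
  apply le_antisymm
  · apply iSup_le
    intro s
    obtain ⟨r, hr⟩ : ∃ r : ℕ → ℚ, Tendsto (fun k => (r k : ℝ)) atTop (𝓝 s) := by
      obtain ⟨u, _, _, hlim⟩ := Real.exists_seq_rat_strictMono_tendsto s
      exact ⟨u, hlim⟩
    refine (av_lsc (tendsto_linePt (b := b) (c := fun _ => b) tendsto_const_nhds hr) hF).trans ?_
    refine liminf_le_of_le (by isBoundedDefault) ?_
    intro x hx
    obtain ⟨k, hk⟩ := hx.exists
    exact hk.trans (le_iSup (fun q : ℚ => av δ (dir v) (linePt b v q) F) (r k))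
  · apply iSup_le
    intro q
    exact le_iSup (fun s : ℝ => av δ (dir v) (linePt b v s) F) (q : ℝ)

theorem measurable_dir : Measurable (dir : Vec d → Space d) := by
  have h1 : Continuous fun v : Vec d => (√(1 + ‖v‖ ^ 2))⁻¹ := by
    apply Continuous.inv₀
    · fun_prop
    · intro v; positivity
  have h2 : Continuous fun v : Vec d => (WithLp.toLp 2 (v, (1:ℝ)) : Space d) :=
    (WithLp.prod_continuous_toLp 2 (Vec d) ℝ).comp (by fun_prop)
  exact (h1.smul h2).measurable

theorem measurable_linePt {b : Vec d → Vec d} (hb : Measurable b) (s : ℝ) :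
    Measurable fun v => linePt b v s := by
  unfold linePt
  exact (WithLp.prod_continuous_toLp 2 (Vec d) ℝ).measurable.comp
    ((hb.add (measurable_id.const_smul s)).prodMk measurable_const)

theorem measurable_lm {δ : ℝ} {b : Vec d → Vec d} (hb : Measurable b) {F : Space d → ℝ≥0∞}
    (hF : Measurable F) : Measurable (lm δ b F) := by
  have : lm δ b F = fun v => ⨆ q : ℚ, av δ (dir v) (linePt b v q) F := by
    funext v
    exact lm_rat b hF v
  rw [this]
  exact Measurable.iSup fun q => measurable_av measurable_dir (measurable_linePt hb q) hF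

/-- Lower semicontinuity in the family. -/
theorem lm_lsc {δ : ℝ} {b : Vec d → Vec d} {c : ℕ → Vec d → Vec d} {v : Vec d}
    (hc : Tendsto (fun k => c k v) atTop (𝓝 (b v))) {F : Space d → ℝ≥0∞} (hF : Measurable F) :
    lm δ b F v ≤ liminf (fun k => lm δ (c k) F v) atTop := by
  apply iSup_le
  intro s
  refine (av_lsc (tendsto_linePt hc (r := fun _ => s) tendsto_const_nhds) hF).trans ?_
  refine liminf_le_liminf ?_ (by isBoundedDefault) (by isBoundedDefault)
  exact Eventually.of_forall fun k => le_iSup (fun s : ℝ => av δ (dir v) (linePt (c k) v s) F) s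

/-- The `L^p` norm of the maximal function, to the power `p`. -/
noncomputable def JJ (δ p : ℝ) (b : Vec d → Vec d) (F : Space d → ℝ≥0∞) : ℝ≥0∞ :=
  ∫⁻ v in closedBall (0 : Vec d) 1, lm δ b F v ^ p

theorem JJ_lsc {δ p : ℝ} (hp : 0 ≤ p) {b : Vec d → Vec d} {c : ℕ → Vec d → Vec d}
    (hcm : ∀ k, Measurable (c k))
    (hc : ∀ᵐ v ∂(volume.restrict (closedBall (0 : Vec d) 1)),
      Tendsto (fun k => c k v) atTop (𝓝 (b v))) {F : Space d → ℝ≥0∞} (hF : Measurable F) :
    JJ δ p b F ≤ liminf (fun k => JJ δ p (c k) F) atTop := by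
  unfold JJ
  refine le_trans ?_ (lintegral_liminf_le fun k => (measurable_lm (hcm k) hF).pow_const p)
  apply lintegral_mono_ae
  filter_upwards [hc] with v hv
  have h1 := lm_lsc (δ := δ) hv hF
  have h2 : Monotone fun x : ℝ≥0∞ => x ^ p := fun x y h => ENNReal.rpow_le_rpow h hp
  have h3 := h2.map_liminf_of_continuousAt (F := atTop) (fun k => lm δ (c k) F v)
    (ENNReal.continuous_rpow_const.continuousAt)
  calc lm δ b F v ^ p ≤ (liminf (fun k => lm δ (c k) F v) atTop) ^ p := ENNReal.rpow_le_rpow h1 hp
    _ = _ := h3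

end Pool.Agent.X91.TY
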