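import Pool.Agent.X91.TY.Triv
import Pool.Agent.X91.KT.Sph

set_option autoImplicit false

/-!
From families of lines over a ball to the Kakeya maximal function on the sphere.
-/

open MeasureTheory Set ENNReal NNReal Metric Filter Topology

namespace Pool.Agent.X91.TY

open Pool.Agent.H803R2.Kak Pool.Agent.H803R2.KakFTO
open Pool.Agent.X91.KT (phi phi_emb norm_dir' lint_le)
open scoped Pointwise

variable {d : ℕ}

/-- The supremum over all centres. -/
noncomputable def ks (δ : ℝ) (u : Space d) (F : Space d → ℝ≥0∞) : ℝ≥0∞ := ⨆ a, av δ u a F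

theorem ks_seq {δ : ℝ} {F : Space d → ℝ≥0∞} (hF : Measurable F) (u : Space d) :
    ks δ u F ≤ ⨆ i, av δ u (TopologicalSpace.denseSeq (Space d) i) F := by
  apply iSup_le
  intro a
  have h1 : a ∈ closure (range (TopologicalSpace.denseSeq (Space d))) :=
    TopologicalSpace.denseRange_denseSeq _ a
  obtain ⟨x, hx, hlim⟩ := mem_closure_iff_seq_limit.1 h1
  choose r hr using hx
  refine (av_lsc hlim hF).trans ?_
  refine liminf_le_of_le (by isBoundedDefault) ?_
  intro y hy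
  obtain ⟨k, hk⟩ := hy.exists
  rw [← hr k] at hk
  exact hk.trans (le_iSup (fun i => av δ u (TopologicalSpace.denseSeq (Space d) i) F) (r k))

/-- Measurable selection. -/
theorem select {δ p : ℝ} (hδ : 0 < δ) (hδ1 : δ < 1) (hp : 1 ≤ p) {F : Space d → ℝ≥0∞}
    (hF : Measurable F) (hfin : ∫⁻ y, F y ^ p ≠ ∞) : ∃ b : Vec d → Vec d, Measurable b ∧
      ∀ v ∈ closedBall (0 : Vec d) 1, ks δ (dir v) F ≤ 2 * lm δ b F v := by
  classical
  have hp0 : 0 < p := by linarith
  set q : ℕ → Space d := TopologicalSpace.denseSeq (Space d) with hq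
  set a : ℕ → Vec d → ℝ≥0∞ := fun i v => av δ (dir v) (q i) F with ha
  have ham : ∀ i, Measurable (a i) := fun i => measurable_av measurable_dir measurable_const hF
  set g : Vec d → ℝ≥0∞ := fun v => ⨆ i, a i v with hg
  have hgm : Measurable g := Measurable.iSup ham
  set P : ℕ → Vec d → Prop := fun i v => g v ≤ 2 * a i v ∨ v ∉ closedBall (0 : Vec d) 1 with hP
  have hPm : ∀ i, MeasurableSet {v | P i v} := fun i =>
    (measurableSet_le hgm ((ham i).const_mul 2)).union measurableSet_closedBall.compl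
  have hPe : ∀ v, ∃ i, P i v := by
    intro v
    by_cases hv : v ∈ closedBall (0 : Vec d) 1
    · have hgt : g v < ∞ := by
        have h1 : g v ≤ ((v0 d δ)⁻¹ * ∫⁻ y, F y ^ p) ^ (1 / p) := by
          apply iSup_le
          intro i
          calc a i v = (a i v ^ p) ^ (1 / p) := by
                rw [← ENNReal.rpow_mul, mul_one_div_cancel hp0.ne', ENNReal.rpow_one]
            _ ≤ _ := ENNReal.rpow_le_rpow (av_pow_le hδ hδ1 hp (mem_closedBall_zero_iff.1 hv) _ hF)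
                (by positivity)
        refine lt_of_le_of_lt h1 (ENNReal.rpow_lt_top_of_nonneg (by positivity) ?_)
        exact ENNReal.mul_ne_top (ENNReal.inv_ne_top.2 (v0_pos hδ)) hfin
      rcases eq_or_ne (g v) 0 with h0 | h0
      · exact ⟨0, Or.inl (by rw [h0]; exact zero_le)⟩
      · have h2 : g v / 2 < ⨆ i, a i v := ENNReal.half_lt_self h0 hgt.ne
        obtain ⟨i, hi⟩ := lt_iSup_iff.1 h2
        refine ⟨i, Or.inl ?_⟩
        calc g v = 2 * (g v / 2) := by rw [ENNReal.mul_div_cancel (by simp) (by simp)]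
          _ ≤ _ := by gcongr
    · exact ⟨0, Or.inr hv⟩
  set f : ℕ → Vec d → Vec d := fun i v => (q i).fst - (q i).snd • v with hf
  have hfm : ∀ i, Measurable (f i) := fun i =>
    measurable_const.sub (measurable_id.const_smul (q i).snd)
  refine ⟨fun v => f (Nat.find (hPe v)) v, Measurable.find hfm hPm hPe, ?_⟩
  intro v hv
  set i := Nat.find (hPe v) with hi
  have h1 : P i v := Nat.find_spec (hPe v)
  have h2 : g v ≤ 2 * a i v := by
    rcases h1 with h1 | h1
    · exact h1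
    · exact absurd hv h1
  refine (ks_seq hF _).trans (h2.trans ?_)
  gcongr
  have h3 : linePt (fun v => f (Nat.find (hPe v)) v) v (q i).snd = q i := by
    have e1 : f (Nat.find (hPe v)) v = (q i).fst - (q i).snd • v := rfl
    unfold linePt
    beta_reduce
    rw [e1, sub_add_cancel]
    rfl
  simp only [ha]
  rw [← h3]
  exact le_iSup (fun s : ℝ => av δ (dir v) (linePt (fun v => f (Nat.find (hPe v)) v) v s) F) _

/-! ### The sphere -/

/-- The closed tube in `ℝ^n`. -/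
def tubeE {n : ℕ} (δ : ℝ) (e a : EuclideanSpace ℝ (Fin n)) : Set (EuclideanSpace ℝ (Fin n)) :=
  {y | |inner ℝ (y - a) e| ≤ 1 / 2 ∧ ‖(y - a) - (inner ℝ (y - a) e : ℝ) • e‖ ≤ δ}

/-- The Kakeya maximal function. -/
noncomputable def kE {n : ℕ} (δ : ℝ) (G : EuclideanSpace ℝ (Fin n) → ℝ≥0∞)
    (e : EuclideanSpace ℝ (Fin n)) : ℝ≥0∞ :=
  ⨆ a, (volume (tubeE δ e a))⁻¹ * ∫⁻ y in tubeE δ e a, G y

theorem preimage_tubeE (Ψ : Space d ≃ₗᵢ[ℝ] EuclideanSpace ℝ (Fin (d + 1))) (δ : ℝ)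
    (e a : Space d) : Ψ ⁻¹' (tubeE δ (Ψ e) (Ψ a)) = tube δ e a := by
  ext y
  simp only [tubeE, tube, mem_preimage, mem_ofPred_eq]
  rw [← map_sub, LinearIsometryEquiv.inner_map_map, ← map_smul, ← map_sub,
    LinearIsometryEquiv.norm_map]

theorem kE_eq (Ψ : Space d ≃ₗᵢ[ℝ] EuclideanSpace ℝ (Fin (d + 1))) (δ : ℝ)
    (G : EuclideanSpace ℝ (Fin (d + 1)) → ℝ≥0∞) (e : Space d) :
    kE δ G (Ψ e) = ks δ e (fun y => G (Ψ y)) := by
  have hmp : MeasurePreserving Ψ volume volume := Ψ.measurePreserving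
  have hme : MeasurableEmbedding Ψ := Ψ.toHomeomorph.measurableEmbedding
  have key : ∀ a : Space d, (volume (tubeE δ (Ψ e) (Ψ a)))⁻¹ * ∫⁻ y in tubeE δ (Ψ e) (Ψ a), G y =
      av δ e a (fun y => G (Ψ y)) := by
    intro a
    unfold av
    rw [← preimage_tubeE Ψ δ e a, hmp.measure_preimage_emb hme,
      hmp.setLIntegral_comp_preimage_emb hme]
  unfold kE ks
  apply le_antisymm
  · apply iSup_le
    intro a
    have := key (Ψ.symm a)
    rw [Ψ.apply_symm_apply] at this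
    rw [this]
    exact le_iSup (fun a => av δ e a (fun y => G (Ψ y))) (Ψ.symm a)
  · apply iSup_le
    intro a
    rw [← key a]
    exact le_iSup (fun a => (volume (tubeE δ (Ψ e) a))⁻¹ * ∫⁻ y in tubeE δ (Ψ e) a, G y) (Ψ a)

theorem toLp_smul_one (t : ℝ) (v : Vec d) :
    (WithLp.toLp 2 (t • v, t) : Space d) = t • WithLp.toLp 2 (v, (1 : ℝ)) := by
  apply WithLp.ofLp_injective
  apply Prod.ext
  · rfl
  · simp

theorem lint_biUnion {α ι : Type*} [MeasurableSpace α] [DecidableEq ι] (μ : Measure α)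
    (t : Finset ι) (s : ι → Set α) (f : α → ℝ≥0∞) :
    ∫⁻ x in ⋃ i ∈ t, s i, f x ∂μ ≤ ∑ i ∈ t, ∫⁻ x in s i, f x ∂μ := by
  induction t using Finset.induction_on with
  | empty => simp
  | insert a t ha ih =>
    rw [Finset.set_biUnion_insert, Finset.sum_insert ha]
    exact (lintegral_union_le _ _ _).trans (by gcongr)

theorem vol_cone (S : Set (Vec d)) (hS : MeasurableSet S) :
    volume {p : Vec d × ℝ | p.2 ∈ Ioo (0 : ℝ) 1 ∧ p.2⁻¹ • p.1 ∈ S} =
      ENNReal.ofReal (1 / (d + 1)) * volume S := by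
  set R : Set (Vec d × ℝ) := {p | p.2 ∈ Ioo (0 : ℝ) 1 ∧ p.2⁻¹ • p.1 ∈ S} with hR
  have hRm : MeasurableSet R := by
    apply MeasurableSet.inter
    · exact measurable_snd measurableSet_Ioo
    · exact (measurable_snd.inv.smul measurable_fst) hS
  have : volume R = ∫⁻ t : ℝ, volume ((fun y => (y, t)) ⁻¹' R) := by
    rw [Measure.volume_eq_prod]
    exact Measure.prod_apply_symm hRm
  rw [this]
  have h4 : ∀ t : ℝ, volume ((fun y : Vec d => (y, t)) ⁻¹' R) =
      (Ioo (0 : ℝ) 1).indicator (fun t => ENNReal.ofReal (t ^ d) * volume S) t := by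
    intro t
    by_cases ht : t ∈ Ioo (0 : ℝ) 1
    · rw [indicator_of_mem ht]
      have ht0 : t ≠ 0 := ht.1.ne'
      have : (fun y : Vec d => (y, t)) ⁻¹' R = t • S := by
        ext y
        simp only [hR, mem_preimage, mem_ofPred_eq]
        rw [mem_smul_set_iff_inv_smul_mem₀ ht0]
        exact ⟨fun h => h.2, fun h => ⟨ht, h⟩⟩
      rw [this, Measure.addHaar_smul]
      simp [abs_of_pos ht.1]
    · rw [indicator_of_notMem ht]
      have : (fun y : Vec d => (y, t)) ⁻¹' R = ∅ := by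
        ext y
        simp only [hR, mem_preimage, mem_ofPred_eq, mem_empty_iff_false, iff_false]
        exact fun h => ht h.1
      rw [this, measure_empty]
  simp only [h4]
  rw [lintegral_indicator measurableSet_Ioo, lintegral_mul_const _ (by fun_prop)]
  congr 1
  rw [← ofReal_integral_eq_lintegral_ofReal]
  · congr 1
    rw [MeasureTheory.integral_Ioc_eq_integral_Ioo.symm,
      ← intervalIntegral.integral_of_le (by norm_num), integral_pow]
    simp
  · apply IntegrableOn.mono_set (t := Icc 0 1) _ Ioo_subset_Icc_self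
    exact (continuous_pow d).continuousOn.integrableOn_Icc
  · filter_upwards [self_mem_ae_restrict (measurableSet_Ioo (a := (0 : ℝ)) (b := 1))] with t ht
    exact pow_nonneg ht.1.le d

theorem cap_le (Ψ : Space d ≃ₗᵢ[ℝ] EuclideanSpace ℝ (Fin (d + 1))) :
    (volume : Measure (EuclideanSpace ℝ (Fin (d + 1)))).toSphere.restrict
      (phi Ψ '' closedBall (0 : Vec d) 1) ≤
      Measure.map (phi Ψ) (volume.restrict (closedBall (0 : Vec d) 1)) := by
  rw [Measure.le_iff]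
  intro A hA
  have hcap : MeasurableSet (phi Ψ '' closedBall (0 : Vec d) 1) :=
    (phi_emb Ψ).measurableSet_image.2 measurableSet_closedBall
  rw [(phi_emb Ψ).map_apply, Measure.restrict_apply ((phi_emb Ψ).measurable hA),
    Measure.restrict_apply hA, Measure.toSphere_apply' _ (hA.inter hcap)]
  set S : Set (Vec d) := phi Ψ ⁻¹' A ∩ closedBall 0 1 with hS
  have hSm : MeasurableSet S := ((phi_emb Ψ).measurable hA).inter measurableSet_closedBall
  set R : Set (Vec d × ℝ) := {p | p.2 ∈ Ioo (0 : ℝ) 1 ∧ p.2⁻¹ • p.1 ∈ S} with hR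
  have hmp := WithLp.volume_preserving_toLp (Vec d) ℝ
  have hsub : Ioo (0 : ℝ) 1 • ((↑) '' (A ∩ phi Ψ '' closedBall (0 : Vec d) 1) :
      Set (EuclideanSpace ℝ (Fin (d + 1)))) ⊆ Ψ ∘ (WithLp.toLp 2) '' R := by
    rintro _ ⟨r, ⟨hr0, hr1⟩, _, ⟨_, ⟨hxA, v, hv, rfl⟩, rfl⟩, rfl⟩
    have hs : 0 < √(1 + ‖v‖ ^ 2) := by positivity
    have hs1 : 1 ≤ √(1 + ‖v‖ ^ 2) := by
      rw [Real.one_le_sqrt]
      nlinarith [norm_nonneg v]
    set t : ℝ := r * (√(1 + ‖v‖ ^ 2))⁻¹ with ht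
    have ht0 : 0 < t := by positivity
    refine ⟨(t • v, t), ⟨⟨ht0, ?_⟩, ?_⟩, ?_⟩
    · calc t ≤ r * 1 := by
            rw [ht]
            gcongr
            exact inv_le_one_of_one_le₀ hs1
        _ < 1 := by linarith
    · simp only
      rw [smul_smul, inv_mul_cancel₀ ht0.ne', one_smul]
      exact ⟨hxA, hv⟩
    · simp only [phi, Function.comp]
      rw [← map_smul]
      congr 1
      unfold dir
      rw [smul_smul, ← ht, ← toLp_smul_one]
  have hvol : volume (Ψ ∘ (WithLp.toLp 2) '' R) = volume R := by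
    have h1 : MeasurePreserving (Ψ ∘ (WithLp.toLp 2 : Vec d × ℝ → Space d)) volume volume :=
      Ψ.measurePreserving.comp hmp
    have h2 : MeasurableEmbedding (Ψ ∘ (WithLp.toLp 2 : Vec d × ℝ → Space d)) :=
      Ψ.toHomeomorph.measurableEmbedding.comp
        (MeasurableEquiv.toLp 2 ((Vec d) × ℝ)).measurableEmbedding
    have h3 := h1.measure_preimage_emb h2 (Ψ ∘ (WithLp.toLp 2) '' R)
    rw [preimage_image_eq _ h2.injective] at h3
    exact h3.symm
  have hfin : Module.finrank ℝ (EuclideanSpace ℝ (Fin (d + 1))) = d + 1 := by simp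
  rw [hfin]
  calc ((d + 1 : ℕ) : ℝ≥0∞) * volume (Ioo (0 : ℝ) 1 •
        ((↑) '' (A ∩ phi Ψ '' closedBall (0 : Vec d) 1) : Set (EuclideanSpace ℝ (Fin (d + 1)))))
      ≤ ((d + 1 : ℕ) : ℝ≥0∞) * volume R := by
        rw [← hvol]
        gcongr
    _ = ((d + 1 : ℕ) : ℝ≥0∞) * (ENNReal.ofReal (1 / (d + 1)) * volume S) := by
        rw [hR, vol_cone S hSm]
    _ = volume S := by
        have e2 : ((d + 1 : ℕ) : ℝ≥0∞) = ENNReal.ofReal ((d : ℝ) + 1) := by
          rw [← ENNReal.ofReal_natCast]; push_cast; rfl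
        rw [← mul_assoc, e2, ← ENNReal.ofReal_mul (by positivity),
          mul_one_div_cancel (by positivity), ENNReal.ofReal_one, one_mul]

theorem cap_lint (Ψ : Space d ≃ₗᵢ[ℝ] EuclideanSpace ℝ (Fin (d + 1)))
    (G : sphere (0 : EuclideanSpace ℝ (Fin (d + 1))) 1 → ℝ≥0∞) :
    ∫⁻ e in phi Ψ '' closedBall (0 : Vec d) 1, G e
      ∂(volume : Measure (EuclideanSpace ℝ (Fin (d + 1)))).toSphere ≤
      ∫⁻ v in closedBall (0 : Vec d) 1, G (phi Ψ v) := by
  rw [← (phi_emb Ψ).lintegral_map G]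
  exact lintegral_mono' (cap_le Ψ) le_rfl

/-- Finitely many caps cover the sphere. -/
theorem cover (d : ℕ) : ∃ t : Finset (Space d ≃ₗᵢ[ℝ] EuclideanSpace ℝ (Fin (d + 1))),
    ∀ e : sphere (0 : EuclideanSpace ℝ (Fin (d + 1))) 1, ∃ Ψ ∈ t,
      e ∈ phi Ψ '' closedBall (0 : Vec d) 1 := by
  classical
  set w : Space d := WithLp.toLp 2 ((0 : Vec d), (1 : ℝ)) with hw
  have hwn : ‖w‖ = 1 := by
    rw [hw, WithLp.prod_norm_eq_of_L2]
    simp
  have hfr : Module.finrank ℝ (Space d) = d + 1 := by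
    rw [LinearEquiv.finrank_eq (WithLp.linearEquiv 2 ℝ (Vec d × ℝ))]
    simp
  let Ψ0 : Space d ≃ₗᵢ[ℝ] EuclideanSpace ℝ (Fin (d + 1)) :=
    ((stdOrthonormalBasis ℝ (Space d)).reindex (finCongr hfr)).repr
  have hg : ∀ e : sphere (0 : EuclideanSpace ℝ (Fin (d + 1))) 1,
      ∃ Ψ : Space d ≃ₗᵢ[ℝ] EuclideanSpace ℝ (Fin (d + 1)), Ψ w = e := by
    intro e
    have he : ‖Ψ0 w‖ = ‖(e : EuclideanSpace ℝ (Fin (d + 1)))‖ := by
      rw [Ψ0.norm_map, hwn]
      simp
    refine ⟨Ψ0.trans (Submodule.reflection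
      (Submodule.span ℝ {Ψ0 w - (e : EuclideanSpace ℝ (Fin (d + 1)))})ᗮ), ?_⟩
    exact Submodule.reflection_sub he
  choose Ψ hΨ using hg
  set U : sphere (0 : EuclideanSpace ℝ (Fin (d + 1))) 1 →
      Set (sphere (0 : EuclideanSpace ℝ (Fin (d + 1))) 1) := fun e =>
    {x | 3 / 4 < (inner ℝ (x : EuclideanSpace ℝ (Fin (d + 1)))
      (e : EuclideanSpace ℝ (Fin (d + 1))) : ℝ)} with hU
  have hUo : ∀ e, IsOpen (U e) := by
    intro e
    apply isOpen_lt continuous_const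
    exact continuous_subtype_val.inner continuous_const
  have hUe : ∀ e, e ∈ U e := by
    intro e
    simp only [hU, mem_ofPred_eq]
    rw [real_inner_self_eq_norm_sq]
    have : ‖(e : EuclideanSpace ℝ (Fin (d + 1)))‖ = 1 := by simp
    rw [this]
    norm_num
  obtain ⟨s, hs⟩ := isCompact_univ.elim_finite_subcover U hUo
    (fun e _ => mem_iUnion.2 ⟨e, hUe e⟩)
  refine ⟨s.image Ψ, ?_⟩
  intro x
  obtain ⟨e, he, hx⟩ := mem_iUnion₂.1 (hs (mem_univ x))
  refine ⟨Ψ e, Finset.mem_image_of_mem _ he, ?_⟩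
  set y : Space d := (Ψ e).symm x with hy
  have hyx : Ψ e y = x := (Ψ e).apply_symm_apply _
  have hyn : ‖y‖ = 1 := by
    rw [hy, LinearIsometryEquiv.norm_map]
    simp
  have hin : (inner ℝ y w : ℝ) = inner ℝ (x : EuclideanSpace ℝ (Fin (d + 1)))
      (e : EuclideanSpace ℝ (Fin (d + 1))) := by
    rw [← hΨ e, ← hyx, LinearIsometryEquiv.inner_map_map]
  obtain ⟨⟨z, t⟩, hzt⟩ := (WithLp.toLp_surjective 2) y
  have hin2 : (inner ℝ y w : ℝ) = t := by
    rw [← hzt, hw, WithLp.prod_inner_apply]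
    simp
  have ht : 3 / 4 < t := by
    rw [← hin2, hin]
    exact hx
  have hnz : ‖z‖ ^ 2 + t ^ 2 = 1 := by
    have h1 : ‖y‖ ^ 2 = ‖z‖ ^ 2 + ‖t‖ ^ 2 := by
      rw [← hzt, WithLp.prod_norm_sq_eq_of_L2]
      rfl
    rw [hyn, Real.norm_eq_abs, sq_abs] at h1
    linarith
  have ht0 : 0 < t := by linarith
  refine ⟨t⁻¹ • z, ?_, ?_⟩
  · rw [mem_closedBall_zero_iff, norm_smul, norm_inv, Real.norm_of_nonneg ht0.le,
      inv_mul_le_iff₀ ht0, mul_one]
    nlinarith [norm_nonneg z]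
  · apply Subtype.ext
    simp only [phi]
    rw [← hyx]
    congr 1
    rw [← hzt]
    unfold dir
    have h2 : √(1 + ‖t⁻¹ • z‖ ^ 2) = t⁻¹ := by
      have h3 : 1 + ‖t⁻¹ • z‖ ^ 2 = t⁻¹ ^ 2 := by
        rw [norm_smul, norm_inv, Real.norm_of_nonneg ht0.le, mul_pow]
        field_simp
        linarith
      rw [h3, Real.sqrt_sq (by positivity)]
    rw [h2, inv_inv, ← toLp_smul_one, smul_smul, mul_inv_cancel₀ ht0.ne', one_smul]

/-- The passage from the families to the maximal function. -/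
theorem sphere_of_fam (d : ℕ) : ∃ N : ℕ, ∀ (δ p : ℝ) (K : ℝ≥0∞), 0 < δ → δ < 1 → 1 ≤ p →
    K ≠ 0 → (∀ b : Vec d → Vec d, Measurable b → ∀ F : Space d → ℝ≥0∞, Measurable F →
      JJ δ p b F ≤ K * ∫⁻ y, F y ^ p) →
    ∀ G : EuclideanSpace ℝ (Fin (d + 1)) → ℝ≥0∞, Measurable G →
      ∫⁻ e : sphere (0 : EuclideanSpace ℝ (Fin (d + 1))) 1, kE δ G e ^ p
        ∂(volume : Measure (EuclideanSpace ℝ (Fin (d + 1)))).toSphere ≤
      N * 2 ^ p * K * ∫⁻ y, G y ^ p := by
  classical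
  obtain ⟨t, ht⟩ := cover d
  refine ⟨t.card, ?_⟩
  intro δ p K hδ hδ1 hp hK hfam G hG
  have hp0 : 0 < p := by linarith
  rcases eq_or_ne (∫⁻ y, G y ^ p) ∞ with hinf | hfin
  · rcases Nat.eq_zero_or_pos t.card with h0 | h0
    · have hempty : IsEmpty (sphere (0 : EuclideanSpace ℝ (Fin (d + 1))) 1) := by
        refine ⟨fun e => ?_⟩
        obtain ⟨Ψ, hΨ, _⟩ := ht e
        rw [Finset.card_eq_zero.1 h0] at hΨ
        simp at hΨ
      simp
    · rw [hinf, ENNReal.mul_top]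
      · exact le_top
      · apply mul_ne_zero (mul_ne_zero _ _) hK
        · exact_mod_cast h0.ne'
        · rw [Ne, ENNReal.rpow_eq_zero_iff]
          simp
  have hone : ∀ Ψ ∈ t, ∫⁻ e in phi Ψ '' closedBall (0 : Vec d) 1, kE δ G e ^ p
      ∂(volume : Measure (EuclideanSpace ℝ (Fin (d + 1)))).toSphere ≤
      2 ^ p * K * ∫⁻ y, G y ^ p := by
    intro Ψ _
    have hmp : MeasurePreserving Ψ volume volume := Ψ.measurePreserving
    have hGΨ : Measurable fun y => G (Ψ y) := hG.comp hmp.measurable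
    have hI : ∫⁻ y, G (Ψ y) ^ p = ∫⁻ y, G y ^ p := hmp.lintegral_comp (hG.pow_const p)
    obtain ⟨b, hb, hbs⟩ := select hδ hδ1 hp hGΨ (by rw [hI]; exact hfin)
    refine (cap_lint Ψ _).trans ?_
    calc ∫⁻ v in closedBall (0 : Vec d) 1, kE δ G (phi Ψ v) ^ p
        ≤ ∫⁻ v in closedBall (0 : Vec d) 1, 2 ^ p * lm δ b (fun y => G (Ψ y)) v ^ p := by
          apply setLIntegral_mono' measurableSet_closedBall
          intro v hv
          rw [← ENNReal.mul_rpow_of_nonneg _ _ hp0.le]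
          apply ENNReal.rpow_le_rpow _ hp0.le
          have : (phi Ψ v : EuclideanSpace ℝ (Fin (d + 1))) = Ψ (dir v) := rfl
          rw [this, kE_eq]
          exact hbs v hv
      _ = 2 ^ p * JJ δ p b (fun y => G (Ψ y)) := by
          unfold JJ
          rw [lintegral_const_mul _ ((measurable_lm hb hGΨ).pow_const p)]
      _ ≤ 2 ^ p * (K * ∫⁻ y, G (Ψ y) ^ p) := by
          gcongr
          exact hfam b hb _ hGΨ
      _ = _ := by rw [hI, mul_assoc]
  calc ∫⁻ e : sphere (0 : EuclideanSpace ℝ (Fin (d + 1))) 1, kE δ G e ^ p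
        ∂(volume : Measure (EuclideanSpace ℝ (Fin (d + 1)))).toSphere
      ≤ ∫⁻ e in ⋃ Ψ ∈ t, phi Ψ '' closedBall (0 : Vec d) 1, kE δ G e ^ p
        ∂(volume : Measure (EuclideanSpace ℝ (Fin (d + 1)))).toSphere := by
        have : (⋃ Ψ ∈ t, phi Ψ '' closedBall (0 : Vec d) 1) =
            (univ : Set (sphere (0 : EuclideanSpace ℝ (Fin (d + 1))) 1)) := by
          rw [eq_univ_iff_forall]
          intro e
          obtain ⟨Ψ, h1, h2⟩ := ht e
          exact mem_iUnion₂.2 ⟨Ψ, h1, h2⟩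
        rw [this, Measure.restrict_univ]
    _ ≤ ∑ Ψ ∈ t, ∫⁻ e in phi Ψ '' closedBall (0 : Vec d) 1, kE δ G e ^ p
        ∂(volume : Measure (EuclideanSpace ℝ (Fin (d + 1)))).toSphere :=
        lint_biUnion _ t _ _
    _ ≤ ∑ Ψ ∈ t, 2 ^ p * K * ∫⁻ y, G y ^ p := Finset.sum_le_sum hone
    _ = _ := by
        rw [Finset.sum_const, nsmul_eq_mul]
        ring

/-- The passage from the maximal function to the families. -/
theorem fam_of_sphere {δ p : ℝ} (hp : 0 < p) {K : ℝ≥0∞}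
    (hs : ∀ G : EuclideanSpace ℝ (Fin (d + 1)) → ℝ≥0∞, Measurable G →
      ∫⁻ e : sphere (0 : EuclideanSpace ℝ (Fin (d + 1))) 1, kE δ G e ^ p
        ∂(volume : Measure (EuclideanSpace ℝ (Fin (d + 1)))).toSphere ≤ K * ∫⁻ y, G y ^ p)
    (b : Vec d → Vec d) {F : Space d → ℝ≥0∞} (hF : Measurable F) :
    JJ δ p b F ≤ 2 ^ (d + 1) * K * ∫⁻ y, F y ^ p := by
  have hfr : Module.finrank ℝ (Space d) = d + 1 := by
    rw [LinearEquiv.finrank_eq (WithLp.linearEquiv 2 ℝ (Vec d × ℝ))]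
    simp
  set Ψ : Space d ≃ₗᵢ[ℝ] EuclideanSpace ℝ (Fin (d + 1)) :=
    ((stdOrthonormalBasis ℝ (Space d)).reindex (finCongr hfr)).repr with hΨ
  have hmp : MeasurePreserving Ψ volume volume := Ψ.measurePreserving
  have hme : MeasurableEmbedding Ψ := Ψ.toHomeomorph.measurableEmbedding
  have hGm : Measurable fun x => F (Ψ.symm x) := hF.comp Ψ.symm.continuous.measurable
  have h1 := hs _ hGm
  have h2 : ∫⁻ y : EuclideanSpace ℝ (Fin (d + 1)), F (Ψ.symm y) ^ p = ∫⁻ y, F y ^ p := by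
    rw [← hmp.lintegral_comp_emb hme]
    simp
  rw [h2] at h1
  unfold JJ
  calc ∫⁻ v in closedBall (0 : Vec d) 1, lm δ b F v ^ p
      ≤ ∫⁻ v in closedBall (0 : Vec d) 1, kE δ (fun x => F (Ψ.symm x)) (phi Ψ v) ^ p := by
        apply lintegral_mono
        intro v
        apply ENNReal.rpow_le_rpow _ hp.le
        have : (phi Ψ v : EuclideanSpace ℝ (Fin (d + 1))) = Ψ (dir v) := rfl
        rw [this, kE_eq]
        simp only [LinearIsometryEquiv.symm_apply_apply]
        apply iSup_le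
        intro s
        exact le_iSup (fun a => av δ (dir v) a F) (linePt b v s)
    _ ≤ _ := lint_le Ψ subset_rfl (fun e => kE δ (fun x => F (Ψ.symm x)) e ^ p)
    _ ≤ 2 ^ (d + 1) * (K * ∫⁻ y, F y ^ p) := by gcongr
    _ = _ := by rw [mul_assoc]

end Pool.Agent.X91.TY
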