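import Pool.Agent.X91.TY.Dens
import Pool.Agent.TH426.Kt.Trans

set_option autoImplicit false

/-!
Trivial bounds for the averages.
-/

open MeasureTheory Set ENNReal NNReal Metric Filter Topology

namespace Pool.Agent.X91.TY

open Pool.Agent.H803R2.Kak Pool.Agent.H803R2.KakFTO

variable {d : ℕ}

/-- The centre as a point of a line. -/
theorem centre_eq (a : Space d) (v : Vec d) :
    ∃ (w : Vec d) (s : ℝ), ∀ b : Vec d → Vec d, b v = w - s • v → a = linePt b v s := by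
  obtain ⟨⟨w, s⟩, rfl⟩ := (WithLp.toLp_surjective 2) a
  refine ⟨w, s, fun b hb => ?_⟩
  unfold linePt
  rw [hb]
  congr 1
  ext1
  · simp
  · rfl

/-- The volume of the tubes. -/
noncomputable def v0 (d : ℕ) (δ : ℝ) : ℝ≥0∞ := ENNReal.ofReal (1/4) * volume (closedBall (0:(Vec d)) (δ/4))

theorem v0_pos {δ : ℝ} (hδ : 0 < δ) : v0 d δ ≠ 0 := by
  unfold v0
  apply mul_ne_zero
  · simp
  · exact (vol_pos (d := d) (r := δ / 4) (by linarith)).ne'

theorem v0_le {δ : ℝ} (hδ : 0 < δ) (hδ1 : δ < 1) {v : Vec d} (hv : ‖v‖ ≤ 1) (a : Space d) :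
    v0 d δ ≤ volume (tube δ (dir v) a) := by
  obtain ⟨w, s, h⟩ := centre_eq a v
  rw [h (fun _ => w - s • v) rfl]
  exact le_volume_tube hδ hδ1 _ hv s

theorem vol_tube_ne_top {δ : ℝ} (hδ : 0 < δ) (hδ1 : δ < 1) {v : Vec d} (hv : ‖v‖ ≤ 1)
    (a : Space d) : volume (tube δ (dir v) a) ≠ ∞ := by
  obtain ⟨w, s, h⟩ := centre_eq a v
  rw [h (fun _ => w - s • v) rfl]
  exact ne_top_of_le_ne_top (ENNReal.mul_ne_top (by simp) measure_closedBall_lt_top.ne)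
    (Pool.Agent.TH426.Kt.vol_tube_le hδ hδ1 _ hv s)

theorem av_pow_le {δ p : ℝ} (hδ : 0 < δ) (hδ1 : δ < 1) (hp : 1 ≤ p) {v : Vec d} (hv : ‖v‖ ≤ 1)
    (a : Space d) {F : Space d → ℝ≥0∞} (hF : Measurable F) :
    av δ (dir v) a F ^ p ≤ (v0 d δ)⁻¹ * ∫⁻ y, F y ^ p := by
  set T := tube δ (dir v) a with hT
  have h1 : av δ (dir v) a F = ∫⁻ y, F y ∂((volume T)⁻¹ • volume.restrict T) := by
    unfold av
    rw [lintegral_smul_measure, smul_eq_mul]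
  have h0 : volume T ≠ 0 := fun h => v0_pos hδ (le_antisymm ((v0_le hδ hδ1 hv a).trans_eq h) zero_le)
  rw [h1]
  refine (Pool.Agent.TH426.Kt.jensen _ ?_ hp hF.aemeasurable).trans ?_
  · rw [Measure.smul_apply, Measure.restrict_apply_univ, smul_eq_mul]
    exact (ENNReal.inv_mul_cancel h0 (vol_tube_ne_top hδ hδ1 hv a)).le
  · rw [lintegral_smul_measure, smul_eq_mul]
    gcongr
    · exact v0_le hδ hδ1 hv a
    · exact Measure.restrict_le_self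

theorem lm_pow_le {δ p : ℝ} (hδ : 0 < δ) (hδ1 : δ < 1) (hp : 1 ≤ p) (b : Vec d → Vec d)
    {v : Vec d} (hv : ‖v‖ ≤ 1) {F : Space d → ℝ≥0∞} (hF : Measurable F) :
    lm δ b F v ^ p ≤ (v0 d δ)⁻¹ * ∫⁻ y, F y ^ p := by
  have hp0 : 0 < p := by linarith
  have h1 : lm δ b F v ≤ ((v0 d δ)⁻¹ * ∫⁻ y, F y ^ p) ^ (1 / p) := by
    apply iSup_le
    intro s
    calc av δ (dir v) (linePt b v s) F = (av δ (dir v) (linePt b v s) F ^ p) ^ (1 / p) := by
          rw [← ENNReal.rpow_mul, mul_one_div_cancel hp0.ne', ENNReal.rpow_one]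
      _ ≤ _ := ENNReal.rpow_le_rpow (av_pow_le hδ hδ1 hp hv _ hF) (by positivity)
  calc lm δ b F v ^ p ≤ (((v0 d δ)⁻¹ * ∫⁻ y, F y ^ p) ^ (1 / p)) ^ p :=
        ENNReal.rpow_le_rpow h1 hp0.le
    _ = _ := by rw [← ENNReal.rpow_mul, one_div_mul_cancel hp0.ne', ENNReal.rpow_one]

/-- The trivial bound. -/
theorem JJ_triv {δ p : ℝ} (hδ : 0 < δ) (hδ1 : δ < 1) (hp : 1 ≤ p) (b : Vec d → Vec d)
    {B : Set (Vec d)} (hB : MeasurableSet B) (hB1 : B ⊆ closedBall 0 1)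
    {F : Space d → ℝ≥0∞} (hF : Measurable F) :
    ∫⁻ v in B, lm δ b F v ^ p ≤ volume B * (v0 d δ)⁻¹ * ∫⁻ y, F y ^ p := by
  calc ∫⁻ v in B, lm δ b F v ^ p ≤ ∫⁻ _ in B, (v0 d δ)⁻¹ * ∫⁻ y, F y ^ p := by
        apply setLIntegral_mono' hB
        intro v hv
        exact lm_pow_le hδ hδ1 hp b (mem_closedBall_zero_iff.1 (hB1 hv)) hF
    _ = _ := by
        rw [lintegral_const, Measure.restrict_apply_univ]
        ring

end Pool.Agent.X91.TY
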